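import Pool.Agent.Y712.BK.FreeP

/-!
# Chains of standard subalgebras
-/

set_option autoImplicit false

namespace Pool.Agent.Y712.BK

open H89R3.BK

variable {K : Type} [Field K] {L : Type} [LieRing L] [LieAlgebra K L]
  {ℳ : ℕ → Submodule K L} (h : IsBlochKato K ℳ)

include h

lemma exists_chain_aux' : ∀ (n : ℕ) (W : Submodule K L), W ≤ ℳ 1 → Big ℳ W →
    (∀ m, n + 1 < m → xn (ℳ 1) W m = 0) → xn (ℳ 1) W (n + 1) ≠ 0 →
    ∃ (C : ℕ → Submodule K L) (v : ℕ → L), C n = W ∧
      (∀ i < n, v i ∉ C i ∧ C (i + 1) = C i ⊔ K ∙ v i ∧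
        (∀ m, i + 1 < m → xn (ℳ 1) (NN (C i) (v i)) m = 0) ∧
        xn (ℳ 1) (NN (C i) (v i)) (i + 1) ≠ 0 ∧
        ((∀ s : Finset K, s.card + 1 ≤ Module.finrank K W → ∃ t, t ∉ s) →
          FreeOver (NN (C i) (v i)) (C i))) ∧
      ∀ i ≤ n, C i ≤ ℳ 1 ∧ Module.finrank K (C i) + n = Module.finrank K W + i ∧
        (∀ m, i + 1 < m → xn (ℳ 1) (C i) m = 0) ∧ xn (ℳ 1) (C i) (i + 1) ≠ 0 := by
  intro n
  induction n with
  | zero =>
    intro W hW _ hn hne
    refine ⟨fun _ => W, fun _ => 0, rfl, fun i hi => absurd hi (Nat.not_lt_zero i), ?_⟩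
    intro i hi
    have hi0 : i = 0 := by omega
    subst hi0
    exact ⟨hW, rfl, hn, hne⟩
  | succ n ih =>
    intro W hW hK hn hne
    have hb : W ≠ ⊥ := by
      rintro rfl
      exact hne (xn_bot (n + 1))
    obtain ⟨A, hA, v, hv, hvA, hsup, hA0, hrel⟩ := exists_hyperplane' h hW hK hb hn
    have hAM := hA.trans hW
    have hfA := fin_of_le h hAM
    have hd : Module.finrank K W = Module.finrank K A + 1 := by
      rw [← hsup, finrank_sup_span hvA]
    have hN0 : ∀ m, n + 1 < m → xn (ℳ 1) (NN A v) m = 0 := by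
      intro m hm
      have h1 := xn_succ h hAM (hW hv) hvA m
      rw [hsup, hn _ (by omega)] at h1
      omega
    have hNne : xn (ℳ 1) (NN A v) (n + 1) ≠ 0 := by
      have h2 := xn_succ h hAM (hW hv) hvA (n + 1)
      rw [hsup, hA0 (n + 1 + 1) (by omega), zero_add] at h2
      rw [← h2]
      exact hne
    have hAne : xn (ℳ 1) A (n + 1) ≠ 0 := by
      have h3 := xn_mono h hAM (NN_le A v) n
      omega
    obtain ⟨C, u, hC1, hC2, hC3⟩ := ih A hAM (hK.mono h hW hA) hA0 hAne
    refine ⟨fun i => if i ≤ n then C i else W, fun i => if i < n then u i else v, ?_, ?_, ?_⟩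
    · exact if_neg (by omega)
    · intro i hi
      change (if i < n then u i else v) ∉ (if i ≤ n then C i else W) ∧
        (if i + 1 ≤ n then C (i + 1) else W) =
          (if i ≤ n then C i else W) ⊔ K ∙ (if i < n then u i else v) ∧
        (∀ m, i + 1 < m → xn (ℳ 1) (NN (if i ≤ n then C i else W)
          (if i < n then u i else v)) m = 0) ∧
        xn (ℳ 1) (NN (if i ≤ n then C i else W) (if i < n then u i else v)) (i + 1) ≠ 0 ∧
        ((∀ s : Finset K, s.card + 1 ≤ Module.finrank K W → ∃ t, t ∉ s) →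
          FreeOver (NN (if i ≤ n then C i else W) (if i < n then u i else v))
            (if i ≤ n then C i else W))
      rw [if_pos (by omega : i ≤ n)]
      by_cases h1 : i < n
      · rw [if_pos h1, if_pos (by omega : i + 1 ≤ n)]
        obtain ⟨a, b, c, d, e⟩ := hC2 i h1
        exact ⟨a, b, c, d, fun hs => e fun s hs' => hs s (by omega)⟩
      · have h2 : i = n := by omega
        subst h2
        rw [if_neg (lt_irrefl _), if_neg (by omega), hC1]
        exact ⟨hvA, hsup.symm, hN0, hNne, fun hs => freeOver_of h hAM (NN_le A v) (hrel hs)⟩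
    · intro i hi
      change (if i ≤ n then C i else W) ≤ ℳ 1 ∧
        Module.finrank K ↥(if i ≤ n then C i else W) + (n + 1) = Module.finrank K W + i ∧
        (∀ m, i + 1 < m → xn (ℳ 1) (if i ≤ n then C i else W) m = 0) ∧
        xn (ℳ 1) (if i ≤ n then C i else W) (i + 1) ≠ 0
      by_cases h1 : i ≤ n
      · rw [if_pos h1]
        obtain ⟨a, b, c, d⟩ := hC3 i h1
        exact ⟨a, by omega, c, d⟩
      · rw [if_neg h1]
        have : i = n + 1 := by omega
        subst this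
        exact ⟨hW, rfl, hn, hne⟩

lemma hasCd_sub' {W : Submodule K L} (hW : W ≤ ℳ 1) {n : ℕ}
    (hn : ∀ m, n + 1 < m → xn (ℳ 1) W m = 0) (hne : xn (ℳ 1) W (n + 1) ≠ 0) :
    HasCd K (LieSubalgebra.lieSpan K L (W : Set L)) (n + 1) := by
  refine ⟨?_, ?_⟩
  · change Nontrivial (Coh K _ (n + 1))
    rw [nontrivial_coh_iff (isBlochKato_sub h hW), betti_sub h hW]
    exact hne
  · intro m hm
    rcases m with _ | m
    · omega
    by_contra hlt
    have h2 : betti K (LieSubalgebra.lieSpan K L (W : Set L)) (m + 1) ≠ 0 :=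
      (nontrivial_coh_iff (isBlochKato_sub h hW) m).1 hm
    rw [betti_sub h hW, hn (m + 1) (by omega)] at h2
    exact h2 rfl

lemma card_of (hK : Infinite K ∨ betti K L 1 ≤ Nat.card K) :
    ∀ s : Finset K, s.card + 1 ≤ Module.finrank K (ℳ 1) → ∃ t, t ∉ s := by
  intro s hs
  by_cases hinf : Infinite K
  · exact Infinite.exists_notMem_finset s
  rw [not_infinite_iff_finite] at hinf
  rcases hK with hK | hK
  · exact Infinite.exists_notMem_finset s
  by_contra hcon
  push Not at hcon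
  have := Fintype.ofFinite K
  have h1 : s = Finset.univ := Finset.eq_univ_of_forall hcon
  rw [betti_eq h, xn_one h le_rfl] at hK
  rw [h1, Finset.card_univ, ← Nat.card_eq_fintype_card] at hs
  omega

lemma big_of_card (hK : Infinite K ∨ betti K L 1 ≤ Nat.card K ∨
      ∀ m, 2 ≤ m → betti K L m + 1 < Nat.card K) : Big ℳ (ℳ 1) := by
  rcases hK with hK | hK | hK
  · exact Or.inl fun s _ => Infinite.exists_notMem_finset s
  · by_cases hinf : Infinite K
    · exact Or.inl fun s _ => Infinite.exists_notMem_finset s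
    rw [not_infinite_iff_finite] at hinf
    refine Or.inl fun s hs => ?_
    by_contra hcon
    push Not at hcon
    have := Fintype.ofFinite K
    have h1 : s = Finset.univ := Finset.eq_univ_of_forall hcon
    rw [betti_eq h, xn_one h le_rfl] at hK
    rw [h1, Finset.card_univ, ← Nat.card_eq_fintype_card] at hs
    omega
  · refine Or.inr fun m hm => ?_
    have h1 := hK m hm
    obtain ⟨m, rfl⟩ : ∃ k, m = k + 1 := ⟨m - 1, by omega⟩
    rw [betti_eq h] at h1
    have hfin : Finite K := Nat.finite_of_card_ne_zero (by omega)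
    rw [← Nat.cast_card]
    exact_mod_cast h1

/-- **The chain.** -/
theorem exists_chain' (hK : Infinite K ∨ betti K L 1 ≤ Nat.card K ∨
      ∀ m, 2 ≤ m → betti K L m + 1 < Nat.card K)
    (n : ℕ) (hn : HasCd K L n) (hn1 : 1 ≤ n) :
    ∃ (C : ℕ → Submodule K L) (v : ℕ → L), C n = ℳ 1 ∧
      (∀ i, 1 ≤ i → i ≤ n → C i ≤ ℳ 1 ∧
        Module.finrank K (C i) + (n - i) = Module.finrank K (ℳ 1) ∧
        IsBlochKato K (subGr (LieSubalgebra.lieSpan K L (C i : Set L)) ℳ) ∧
        HasCd K (LieSubalgebra.lieSpan K L (C i : Set L)) i) ∧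
      FreeOver ⊥ (C 1) ∧
      ∀ i, 1 ≤ i → i < n → v i ∉ C i ∧ C (i + 1) = C i ⊔ K ∙ v i ∧
        IsBlochKato K (subGr (LieSubalgebra.lieSpan K L (NN (C i) (v i) : Set L)) ℳ) ∧
        HasCd K (LieSubalgebra.lieSpan K L (NN (C i) (v i) : Set L)) i ∧
        HNNOver (C i) (v i) ∧
        ((Infinite K ∨ betti K L 1 ≤ Nat.card K) → FreeOver (NN (C i) (v i)) (C i)) := by
  obtain ⟨n, rfl⟩ : ∃ k, n = k + 1 := ⟨n - 1, by omega⟩
  have h0 : ∀ m, n + 1 < m → xn (ℳ 1) (ℳ 1) m = 0 := by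
    intro m hm
    obtain ⟨m, rfl⟩ : ∃ k, m = k + 1 := ⟨m - 1, by omega⟩
    rw [← betti_eq h]
    by_contra hne
    exact absurd (hn.2 ((nontrivial_coh_iff h m).2 hne)) (not_le.2 hm)
  have h1 : xn (ℳ 1) (ℳ 1) (n + 1) ≠ 0 := by
    rw [← betti_eq h]
    exact (nontrivial_coh_iff h n).1 hn.1
  obtain ⟨C, v, hC1, hC2, hC3⟩ := exists_chain_aux' h n (ℳ 1) le_rfl (big_of_card h hK) h0 h1
  refine ⟨fun i => C (i - 1), fun i => v (i - 1), hC1, ?_, ?_, ?_⟩
  · rintro (_ | i) hi1 hi
    · omega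
    obtain ⟨a, b, c, d⟩ := hC3 i (by omega)
    refine ⟨a, ?_, isBlochKato_sub h a, hasCd_sub' h a c d⟩
    change Module.finrank K (C i) + (n + 1 - (i + 1)) = _
    omega
  · obtain ⟨a, b, c, d⟩ := hC3 0 (by omega)
    exact freeOver_bot h a (c 2 (by omega))
  · rintro (_ | i) hi1 hi
    · omega
    obtain ⟨a, b, c, d, e⟩ := hC2 i (by omega)
    obtain ⟨a', -⟩ := hC3 i (by omega)
    obtain ⟨a'', -⟩ := hC3 (i + 1) (by omega)
    have hN : NN (C i) (v i) ≤ ℳ 1 := (NN_le _ _).trans a'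
    have hv : v i ∈ ℳ 1 := by
      apply a''
      rw [b]
      exact Submodule.mem_sup_right (Submodule.mem_span_singleton_self _)
    exact ⟨a, b, isBlochKato_sub h hN, hasCd_sub' h hN c d, hnnOver_of h a' hv a,
      fun hs => e (card_of h hs)⟩

end Pool.Agent.Y712.BK
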