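import Mathlib

/-!
# Elementary symmetric functions of balanced partitions

`turan d n k` is the elementary symmetric function of degree `k` of the `n` numbers
`⌊d / n⌋, ⌊(d + 1) / n⌋, …, ⌊(d + n - 1) / n⌋`, the sizes of the classes of the Turán graph with `d`
vertices and `n` classes; it is the number of cliques with `k` vertices of this graph.
-/

set_option autoImplicit false

namespace Pool.Agent.Y712.BK

/-- The elementary symmetric function of degree `k` of the `n` numbers
`⌊d / n⌋, ⌊(d + 1) / n⌋, …, ⌊(d + n - 1) / n⌋` with sum `d`: the number of cliques with `k` vertices in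
the Turán graph with `d` vertices and `n` classes. -/
def turan (d n k : ℕ) : ℕ := ∑ S ∈ (Finset.range n).powersetCard k, ∏ i ∈ S, (d + i) / n

/-- the balanced partition of `d` into `n` parts -/
def bal (d n : ℕ) : Multiset ℕ := (Multiset.range n).map fun i => (d + i) / n

lemma turan_eq (d n k : ℕ) : turan d n k = (bal d n).esymm k := by
  unfold turan bal
  rw [show Multiset.range n = (Finset.range n).val from rfl, Finset.esymm_map_val]

lemma turan_mono {d d' : ℕ} (h : d ≤ d') (n k : ℕ) : turan d n k ≤ turan d' n k := by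
  unfold turan
  refine Finset.sum_le_sum fun S _ => Finset.prod_le_prod' fun i _ => ?_
  exact Nat.div_le_div_right (by omega)

section esymm

variable {R : Type*} [CommSemiring R]

lemma esymm_zero' (s : Multiset R) : s.esymm 0 = 1 := by
  simp [Multiset.esymm]

lemma esymm_nil (k : ℕ) : (0 : Multiset R).esymm (k + 1) = 0 := by
  simp [Multiset.esymm, Multiset.powersetCard_zero_right]

lemma esymm_cons (a : R) (s : Multiset R) (k : ℕ) :
    (a ::ₘ s).esymm (k + 1) = s.esymm (k + 1) + a * s.esymm k := by
  simp [Multiset.esymm, Multiset.powersetCard_cons, Multiset.map_map,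
    Multiset.sum_map_mul_left]

end esymm

lemma esymm_pair {a b c d : ℕ} (h1 : a + b = c + d) (h2 : a * b ≤ c * d) (s : Multiset ℕ) (k : ℕ) :
    (a ::ₘ b ::ₘ s).esymm k ≤ (c ::ₘ d ::ₘ s).esymm k := by
  rcases k with _ | _ | k
  · rw [esymm_zero', esymm_zero']
  · rw [esymm_cons, esymm_cons, esymm_cons, esymm_cons, esymm_zero', esymm_zero', esymm_zero']
    omega
  · rw [esymm_cons, esymm_cons, esymm_cons, esymm_cons, esymm_cons, esymm_cons]
    have h3 : a * b * s.esymm k ≤ c * d * s.esymm k := Nat.mul_le_mul_right _ h2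
    have h4 : (a + b) * s.esymm (k + 1) = (c + d) * s.esymm (k + 1) := by rw [h1]
    nlinarith

/-- the common part -/
def cpart (r m : ℕ) : Multiset ℕ := (Multiset.range m).map fun i => (r + 1 + i) / (m + 1)

lemma bal_first (r m : ℕ) : bal r (m + 1) = (r / (m + 1)) ::ₘ cpart r m := by
  unfold bal cpart
  show (((List.range (m + 1)).map fun i => (r + i) / (m + 1) : List ℕ) : Multiset ℕ) =
    (r / (m + 1)) ::ₘ (((List.range m).map fun i => (r + 1 + i) / (m + 1) : List ℕ) : Multiset ℕ)
  rw [List.range_succ_eq_map, List.map_cons, List.map_map, add_zero, ← Multiset.cons_coe]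
  congr 2
  apply List.map_congr_left
  intro i _
  simp only [Function.comp_apply]
  congr 1
  omega

lemma bal_last (r m : ℕ) : bal (r + 1) (m + 1) = (r / (m + 1) + 1) ::ₘ cpart r m := by
  unfold bal cpart
  rw [Multiset.range_succ, Multiset.map_cons]
  congr 1
  rw [show r + 1 + m = r + (m + 1) by ring, Nat.add_div_right _ (Nat.succ_pos m)]

lemma step_up {a r m : ℕ} (h : r / (m + 1) ≤ a) (k : ℕ) :
    ((a + 1) ::ₘ bal r (m + 1)).esymm k ≤ (a ::ₘ bal (r + 1) (m + 1)).esymm k := by
  rw [bal_first, bal_last]
  refine esymm_pair (by ring) ?_ _ k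
  nlinarith

lemma step_down {a r m : ℕ} (h : a ≤ r / (m + 1)) (k : ℕ) :
    (a ::ₘ bal (r + 1) (m + 1)).esymm k ≤ ((a + 1) ::ₘ bal r (m + 1)).esymm k := by
  rw [bal_last, bal_first r m]
  refine esymm_pair (by ring) ?_ _ k
  nlinarith

/-- splitting off the first part -/
lemma bal_split (d m : ℕ) : bal d (m + 2) = (d / (m + 2)) ::ₘ bal (d - d / (m + 2)) (m + 1) := by
  rw [bal_first]
  congr 1
  unfold cpart bal
  apply Multiset.map_congr rfl
  intro i hi
  rw [Multiset.mem_range] at hi
  obtain ⟨a, ρ, hρ, rfl⟩ : ∃ a ρ, ρ < m + 2 ∧ d = a * (m + 2) + ρ :=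
    ⟨d / (m + 2), d % (m + 2), Nat.mod_lt _ (by omega), by
      rw [mul_comm]; exact (Nat.div_add_mod d (m + 2)).symm⟩
  have h1 : (a * (m + 2) + ρ) / (m + 2) = a := by
    rw [mul_comm, Nat.mul_add_div (by omega), Nat.div_eq_of_lt hρ, add_zero]
  rw [h1]
  have h2 : a * (m + 2) + ρ - a = a * (m + 1) + ρ := by
    have : a * (m + 2) = a * (m + 1) + a := by ring
    omega
  rw [h2, show a * (m + 2) + ρ + 1 + i = (m + 2) * a + (ρ + i + 1) by ring,
    show a * (m + 1) + ρ + i = (m + 1) * a + (ρ + i) by ring, Nat.mul_add_div (by omega),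
    Nat.mul_add_div (by omega)]
  congr 1
  by_cases h : ρ + i < m + 1
  · rw [Nat.div_eq_of_lt (by omega), Nat.div_eq_of_lt h]
  · rw [Nat.div_eq_of_lt_le (k := 1) (by omega) (by omega),
      Nat.div_eq_of_lt_le (k := 1) (by omega) (by omega)]

/-- **The balanced partition has the largest elementary symmetric functions** (one step). -/
lemma max_step (m a r k : ℕ) : (a ::ₘ bal r m).esymm k ≤ (bal (a + r) (m + 1)).esymm k := by
  rcases m with _ | m
  · have h1 : bal r 0 = 0 := rfl
    have h2 : bal (a + r) 1 = (a + r) ::ₘ 0 := by simp [bal]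
    rw [h1, h2]
    rcases k with _ | k
    · rw [esymm_zero', esymm_zero']
    · rw [esymm_cons, esymm_cons]
      exact Nat.add_le_add_left (Nat.mul_le_mul_right _ (Nat.le_add_right a r)) _
  · generalize hd : a + r = d
    have hpos : 0 < m + 2 := by omega
    rw [show m + 1 + 1 = m + 2 from rfl, bal_split]
    set q := d / (m + 2) with hq
    have hq1 : q * (m + 2) ≤ d := Nat.div_mul_le_self _ _
    have hq2 : d < (q + 1) * (m + 2) := by
      rw [hq, mul_comm]
      exact Nat.lt_mul_div_succ d hpos
    rcases le_total q a with h | h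
    · -- `a` is too large
      have key : ∀ x, q ≤ x → x ≤ d →
          (x ::ₘ bal (d - x) (m + 1)).esymm k ≤ (q ::ₘ bal (d - q) (m + 1)).esymm k := by
        intro x hx
        induction x, hx using Nat.le_induction with
        | base => intro _; exact le_rfl
        | succ x hx ih =>
          intro hxd
          refine le_trans ?_ (ih (by omega))
          have e : d - x = d - (x + 1) + 1 := by omega
          rw [e]
          refine step_up ?_ k
          have h5 : d < (x + 1) * (m + 2) := lt_of_lt_of_le hq2 (Nat.mul_le_mul_right _ (by omega))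
          have h6 : (d - (x + 1)) < (x + 1) * (m + 1) := by
            have : (x + 1) * (m + 2) = (x + 1) * (m + 1) + (x + 1) := by ring
            omega
          have := (Nat.div_lt_iff_lt_mul (by omega : 0 < m + 1)).2 h6
          omega
      have := key a h (by omega)
      rwa [show d - a = r by omega] at this
    · have key : ∀ t, t ≤ q →
          ((q - t) ::ₘ bal (d - (q - t)) (m + 1)).esymm k ≤ (q ::ₘ bal (d - q) (m + 1)).esymm k := by
        intro t
        induction t with
        | zero => intro _; exact le_rfl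
        | succ t ih =>
          intro ht
          refine le_trans ?_ (ih (by omega))
          obtain ⟨x, hx⟩ : ∃ x, x = q - (t + 1) := ⟨_, rfl⟩
          have hqd : q ≤ d := le_trans (Nat.le_mul_of_pos_right q hpos) hq1
          have e1 : q - t = x + 1 := by omega
          have e2 : d - (q - (t + 1)) = d - (q - t) + 1 := by omega
          rw [e2, ← hx, e1]
          refine step_down ?_ k
          rw [Nat.le_div_iff_mul_le (by omega)]
          have h5 : (x + 1) * (m + 2) ≤ d := le_trans (Nat.mul_le_mul_right _ (by omega)) hq1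
          have h6 : (x + 1) * (m + 2) = x * (m + 1) + x + m + 2 := by ring
          omega
      have := key (q - a) (by omega)
      rwa [show q - (q - a) = a by omega, show d - a = r by omega] at this

lemma turan_step (n d r k : ℕ) (h : r ≤ d) :
    turan r n (k + 1) + (d - r) * turan r n k ≤ turan d (n + 1) (k + 1) := by
  have h1 := max_step n (d - r) r (k + 1)
  rw [esymm_cons, show d - r + r = d by omega] at h1
  rw [turan_eq, turan_eq, turan_eq]
  exact h1

/-! ### Maclaurin's inequality -/

lemma bernoulli {u x : ℝ} (hu : 0 ≤ u) (hx : 0 ≤ x) (k : ℕ) :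
    x ^ (k + 1) + (k + 1) * x ^ k * (u - x) ≤ u ^ (k + 1) := by
  induction k with
  | zero => simp
  | succ k ih =>
    have h1 := mul_le_mul_of_nonneg_left ih hu
    have h2 : 0 ≤ (k + 1 : ℝ) * x ^ k * (u - x) ^ 2 := by positivity
    have h3 : u ^ (k + 1 + 1) = u * u ^ (k + 1) := by ring
    rw [h3]
    push_cast
    refine le_trans ?_ h1
    have h4 : u * (x ^ (k + 1) + (k + 1) * x ^ k * (u - x)) =
        x ^ (k + 1 + 1) + (k + 1 + 1) * x ^ (k + 1) * (u - x) +
          (k + 1 : ℝ) * x ^ k * (u - x) ^ 2 := by ring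
    rw [h4]
    linarith

lemma maclaurin_step {m : ℕ} (hm : 0 < m) (k : ℕ) {S a : ℝ} (hS : 0 ≤ S) (ha : 0 ≤ a) :
    (m.choose (k + 1) : ℝ) * (S / m) ^ (k + 1) + a * (m.choose k * (S / m) ^ k) ≤
      ((m + 1).choose (k + 1) : ℝ) * ((a + S) / (m + 1)) ^ (k + 1) := by
  have hm' : (0 : ℝ) < m := by exact_mod_cast hm
  set x := S / m with hx
  have hx0 : 0 ≤ x := by positivity
  have hSx : S = m * x := by rw [hx]; field_simp
  set u := (a + S) / (m + 1) with hu
  have hu0 : 0 ≤ u := by positivity
  have hux : (m + 1) * (u - x) = a - x := by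
    rw [hu, hSx]
    field_simp
    ring
  have hb := bernoulli hu0 hx0 k
  have c1 : ((m : ℝ) + 1) * m.choose k = (m + 1).choose (k + 1) * (k + 1) := by
    have := Nat.add_one_mul_choose_eq m k
    exact_mod_cast this
  have c2 : ((m + 1).choose (k + 1) : ℝ) = m.choose k + m.choose (k + 1) := by
    rw [Nat.choose_succ_succ]
    push_cast
    ring
  have c0 : (0 : ℝ) ≤ ((m + 1).choose (k + 1) : ℝ) := by positivity
  have key : (m + 1 : ℝ) * ((m.choose (k + 1) : ℝ) * x ^ (k + 1) + a * (m.choose k * x ^ k)) ≤
      (m + 1) * (((m + 1).choose (k + 1) : ℝ) * u ^ (k + 1)) := by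
    have e1 : (m + 1 : ℝ) * ((m.choose (k + 1) : ℝ) * x ^ (k + 1) + a * (m.choose k * x ^ k)) =
        ((m + 1).choose (k + 1) : ℝ) * ((m + 1) * x ^ (k + 1) +
          (k + 1) * x ^ k * ((m + 1) * (u - x))) := by
      rw [hux]
      have c3 : ((m : ℝ) + 1) * m.choose (k + 1) =
          ((m + 1).choose (k + 1) : ℝ) * (m + 1) - (m + 1).choose (k + 1) * (k + 1) := by
        rw [← c1]
        rw [c2]
        ring
      calc (m + 1 : ℝ) * ((m.choose (k + 1) : ℝ) * x ^ (k + 1) + a * (m.choose k * x ^ k)) =
          (((m : ℝ) + 1) * m.choose (k + 1)) * x ^ (k + 1) +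
            a * x ^ k * (((m : ℝ) + 1) * m.choose k) := by ring
        _ = _ := by
          rw [c3, c1]
          ring
    rw [e1]
    have e2 : (m + 1 : ℝ) * (((m + 1).choose (k + 1) : ℝ) * u ^ (k + 1)) =
        ((m + 1).choose (k + 1) : ℝ) * ((m + 1) * u ^ (k + 1)) := by ring
    rw [e2]
    refine mul_le_mul_of_nonneg_left ?_ c0
    have := mul_le_mul_of_nonneg_left hb (by positivity : (0 : ℝ) ≤ m + 1)
    refine le_trans (le_of_eq ?_) this
    ring
  exact le_of_mul_le_mul_left key (by positivity)

/-- **Maclaurin's inequality** for natural numbers. -/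
lemma maclaurin (s : Multiset ℕ) (k : ℕ) :
    (s.esymm k : ℝ) ≤ (Multiset.card s).choose k * ((s.sum : ℝ) / Multiset.card s) ^ k := by
  induction s using Multiset.induction_on generalizing k with
  | empty =>
    rcases k with _ | k
    · simp [esymm_zero']
    · simp [esymm_nil]
  | cons a s ih =>
    rcases k with _ | k
    · simp [esymm_zero']
    · rw [esymm_cons, Multiset.card_cons, Multiset.sum_cons]
      rcases Nat.eq_zero_or_pos (Multiset.card s) with h0 | h0
      · rw [Multiset.card_eq_zero] at h0
        subst h0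
        rcases k with _ | k
        · simp [esymm_zero', esymm_nil]
        · simp only [esymm_nil, mul_zero, add_zero, Nat.cast_zero]
          positivity
      · simp only [Nat.cast_add, Nat.cast_mul, Nat.cast_one]
        refine le_trans ?_ (maclaurin_step h0 k (Nat.cast_nonneg _) (Nat.cast_nonneg _))
        exact add_le_add (ih _) (mul_le_mul_of_nonneg_left (ih _) (by positivity))

lemma card_bal (d n : ℕ) : Multiset.card (bal d n) = n := by simp [bal]

lemma sum_bal (d n : ℕ) : (bal d (n + 1)).sum = d := by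
  induction d with
  | zero =>
    unfold bal
    apply Multiset.sum_eq_zero
    intro x hx
    obtain ⟨i, hi, rfl⟩ := Multiset.mem_map.1 hx
    rw [Multiset.mem_range] at hi
    rw [zero_add]
    exact Nat.div_eq_of_lt hi
  | succ d ih =>
    rw [bal_last, Multiset.sum_cons]
    rw [bal_first, Multiset.sum_cons] at ih
    omega

lemma turan_le {n : ℕ} (hn : 0 < n) (d k : ℕ) : n ^ k * turan d n k ≤ n.choose k * d ^ k := by
  obtain ⟨n, rfl⟩ : ∃ m, n = m + 1 := ⟨n - 1, by omega⟩
  have h1 := maclaurin (bal d (n + 1)) k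
  rw [card_bal, sum_bal, ← turan_eq, div_pow] at h1
  have h2 : (0 : ℝ) < ((n + 1 : ℕ) : ℝ) ^ k := by positivity
  have h3 : (((n + 1) ^ k * turan d (n + 1) k : ℕ) : ℝ) ≤ (((n + 1).choose k * d ^ k : ℕ) : ℝ) := by
    push_cast
    rw [← mul_div_assoc, le_div_iff₀ h2] at h1
    push_cast at h1
    linarith
  exact_mod_cast h3

end Pool.Agent.Y712.BK
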