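import Pool.Agent.H89R3.BK.Fin
import Pool.Agent.Y712.BK.Tur

/-!
# The Betti numbers of Bloch-Kato Lie algebras and the Turán numbers
-/

set_option autoImplicit false

namespace Pool.Agent.Y712.BK

open H89R3.BK

variable {K : Type} [Field K] {L : Type} [LieRing L] [LieAlgebra K L]
  {ℳ : ℕ → Submodule K L} (h : IsBlochKato K ℳ)

include h

/-- Going from `A` to `W` one dimension at a time, all degrees. -/
lemma xn_succ_le {W A : Submodule K L} (hW : W ≤ ℳ 1) (hA : A ≤ W) (k : ℕ) {R : ℕ}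
    (hR : ∀ B ≤ W, ∀ v ∈ W, v ∉ B → xn (ℳ 1) (NN B v) k ≤ R) :
    xn (ℳ 1) W (k + 1) ≤
      xn (ℳ 1) A (k + 1) + (Module.finrank K W - Module.finrank K A) * R := by
  have key := flag_induction h hW
    (p := fun j A => xn (ℳ 1) W (k + 1) ≤ xn (ℳ 1) A (k + 1) + j * R)
    (by simp) (by
      intro j A hA v hv hvA hj
      rw [xn_succ h (hA.trans hW) (hW hv) hvA] at hj
      have hj' : xn (ℳ 1) W (k + 1) ≤ xn (ℳ 1) A (k + 1) + xn (ℳ 1) (NN A v) k + j * R := hj
      have := hR A hA v hv hvA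
      rw [add_mul, one_mul]
      omega)
  obtain ⟨j, hj⟩ := exists_add h hW hA
  have h1 := key j A hA hj
  have h2 : Module.finrank K W - Module.finrank K A = j := by omega
  rw [h2]
  exact h1

/-- The cohomological dimension drops. -/
lemma xn_NN_zero {n : ℕ} {W : Submodule K L} (hW : W ≤ ℳ 1)
    (hn : ∀ m, n + 1 < m → xn (ℳ 1) W m = 0) {B : Submodule K L} (hB : B ≤ W) {v : L}
    (hv : v ∈ W) (hvB : v ∉ B) : ∀ m, n < m → xn (ℳ 1) (NN B v) m = 0 := by
  intro m hm
  have h2 : xn (ℳ 1) (B ⊔ K ∙ v) (m + 1) ≤ xn (ℳ 1) W (m + 1) :=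
    xn_mono h hW (sup_le hB (by rw [Submodule.span_singleton_le_iff_mem]; exact hv)) m
  rw [hn (m + 1) (by omega), xn_succ h (hB.trans hW) (hW hv) hvB] at h2
  omega

/-- **The Turán bounds for all standard subalgebras and all degrees.** -/
theorem xn_le_turan : ∀ (n : ℕ) (W : Submodule K L), W ≤ ℳ 1 →
    (∀ m, n < m → xn (ℳ 1) W m = 0) →
    ∀ k, xn (ℳ 1) W k ≤ turan (Module.finrank K W) n k := by
  intro n
  induction n with
  | zero =>
    intro W hW hn k
    rcases k with _ | k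
    · rw [xn_zero h hW, turan_eq, esymm_zero']
    · rw [hn (k + 1) (by omega)]
      exact Nat.zero_le _
  | succ n ih =>
    intro W hW hn k
    rcases k with _ | k
    · rw [xn_zero h hW, turan_eq, esymm_zero']
    by_cases hb : W = ⊥
    · rw [hb, xn_bot]
      exact Nat.zero_le _
    have hfW := fin_of_le h hW
    let S : Set ℕ := {r | ∃ B ≤ W, ∃ v ∈ W, v ∉ B ∧ Module.finrank K ↥(NN B v) = r}
    have hSb : BddAbove S := by
      refine ⟨Module.finrank K W, ?_⟩
      rintro r ⟨B, hB, v, hv, hvB, rfl⟩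
      exact Submodule.finrank_mono ((NN_le _ _).trans hB)
    have hSn : S.Nonempty := by
      obtain ⟨v, hv, hv0⟩ := Submodule.exists_mem_ne_zero_of_ne_bot hb
      exact ⟨_, ⊥, bot_le, v, hv, by rwa [Submodule.mem_bot], rfl⟩
    obtain ⟨B, hB, v, hv, hvB, hr⟩ := Nat.sSup_mem hSn hSb
    set r := sSup S with hrdef
    have hmax : ∀ B ≤ W, ∀ v ∈ W, v ∉ B → Module.finrank K ↥(NN B v) ≤ r :=
      fun B hB v hv hvB => le_csSup hSb ⟨B, hB, v, hv, hvB, rfl⟩
    have hNW : NN B v ≤ W := (NN_le _ _).trans hB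
    have hNM : NN B v ≤ ℳ 1 := hNW.trans hW
    have h3 : Module.finrank K ↥(NN B v) ≤ Module.finrank K W := Submodule.finrank_mono hNW
    have h1 := ih (NN B v) hNM (xn_NN_zero h hW hn hB hv hvB) (k + 1)
    have h2 := xn_succ_le h hW hNW k (R := turan r n k) (by
      intro B' hB' v' hv' hvB'
      refine le_trans (ih (NN B' v') (((NN_le _ _).trans hB').trans hW)
        (xn_NN_zero h hW hn hB' hv' hvB') k) (turan_mono (hmax B' hB' v' hv' hvB') n k))
    rw [hr] at h1 h2 h3
    exact le_trans (le_trans h2 (Nat.add_le_add_right h1 _)) (turan_step n _ r k h3)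

/-- The bounds for the Betti numbers. -/
theorem betti_le_turan (n : ℕ) (hn : HasCd K L n) (k : ℕ) :
    betti K L (k + 1) ≤ turan (betti K L 1) n (k + 1) := by
  have h1 := xn_le_turan h n (ℳ 1) le_rfl (by
    intro m hm
    obtain ⟨m, rfl⟩ : ∃ k, m = k + 1 := ⟨m - 1, by omega⟩
    rw [← betti_eq h]
    have h2 : ¬ Nontrivial (Coh K L (m + 1)) := by
      intro hnt
      exact absurd (hn.2 hnt) (not_le.2 hm)
    rw [not_nontrivial_iff_subsingleton] at h2
    exact Module.finrank_zero_of_subsingleton) (k + 1)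
  rw [← betti_eq h, ← xn_one h le_rfl, ← betti_eq h] at h1
  exact h1

theorem betti_le_choose (n : ℕ) (hn : HasCd K L n) (k : ℕ) :
    n ^ (k + 1) * betti K L (k + 1) ≤ n.choose (k + 1) * betti K L 1 ^ (k + 1) := by
  rcases Nat.eq_zero_or_pos n with h0 | h0
  · subst h0
    simp
  · exact le_trans (Nat.mul_le_mul_left _ (betti_le_turan h n hn k)) (turan_le h0 _ _)

end Pool.Agent.Y712.BK
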