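import Pool.Agent.Y712.BK.Sub

/-!
# The case of equality
-/

set_option autoImplicit false

namespace Pool.Agent.Y712.BK

open H89R3.BK

variable {K : Type} [Field K] {L : Type} [LieRing L] [LieAlgebra K L]
  {ℳ : ℕ → Submodule K L} (h : IsBlochKato K ℳ)

include h

/-- induction on the dimension -/
lemma dim_induction {p : Submodule K L → Prop} (h0 : p ⊥)
    (hs : ∀ A v, A ≤ ℳ 1 → v ∈ ℳ 1 → v ∉ A → p A → p (A ⊔ K ∙ v)) :
    ∀ W ≤ ℳ 1, p W := by
  have key : ∀ (d : ℕ) (W : Submodule K L), W ≤ ℳ 1 → Module.finrank K W = d → p W := by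
    intro d
    induction d with
    | zero =>
      intro W hW hd
      have hfW := fin_of_le h hW
      have hb : W = ⊥ := Submodule.finrank_eq_zero.1 hd
      rw [hb]
      exact h0
    | succ d ih =>
      intro W hW hd
      have hfW := fin_of_le h hW
      have hb : W ≠ ⊥ := by
        rintro rfl
        rw [finrank_bot] at hd
        omega
      obtain ⟨A, hA, v, hv, hvA, hWA⟩ := exists_compl hb
      have hfA := fin_of_le h (hA.trans hW)
      have hAd : Module.finrank K A = d := by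
        have := finrank_sup_span hvA
        rw [hWA, hd] at this
        omega
      rw [← hWA]
      exact hs A v (hA.trans hW) (hW hv) hvA (ih A (hA.trans hW) hAd)
  intro W hW
  exact key _ W hW rfl

lemma xn_le_choose : ∀ (m : ℕ) (W : Submodule K L), W ≤ ℳ 1 →
    xn (ℳ 1) W m ≤ (Module.finrank K W).choose m := by
  intro m
  induction m with
  | zero =>
    intro W hW
    rw [xn_zero h hW, Nat.choose_zero_right]
  | succ m ihm =>
    refine dim_induction h ?_ ?_
    · rw [xn_bot]
      exact Nat.zero_le _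
    · intro A v hA hv hvA ih
      have hfA := fin_of_le h hA
      rw [xn_succ h hA hv hvA, finrank_sup_span hvA, Nat.choose_succ_succ', add_comm]
      refine Nat.add_le_add ((ihm _ ((NN_le _ _).trans hA)).trans ?_) ih
      exact Nat.choose_le_choose m (Submodule.finrank_mono (NN_le _ _))

lemma abelian_of_xn_two : ∀ W ≤ ℳ 1, xn (ℳ 1) W 2 = (Module.finrank K W).choose 2 →
    ∀ a ∈ W, ∀ b ∈ W, ⁅a, b⁆ = 0 := by
  refine dim_induction h ?_ ?_
  · intro _ a ha b _
    rw [(Submodule.mem_bot K).1 ha, zero_lie]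
  · intro A v hA hv hvA ih hx
    have hfA := fin_of_le h hA
    have h1 := xn_le_choose h 2 A hA
    have h2 : xn (ℳ 1) (A ⊔ K ∙ v) 2 = xn (ℳ 1) A 2 + xn (ℳ 1) (NN A v) 1 :=
      xn_succ h hA hv hvA 1
    rw [xn_one h ((NN_le _ _).trans hA)] at h2
    have h3 : Module.finrank K ↥(NN A v) ≤ Module.finrank K A :=
      Submodule.finrank_mono (NN_le _ _)
    have h4 : (Module.finrank K A + 1).choose 2 = Module.finrank K A +
        (Module.finrank K A).choose 2 := by
      rw [Nat.choose_succ_succ' _ 1, Nat.choose_one_right]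
    rw [finrank_sup_span hvA, h4] at hx
    have h5 : xn (ℳ 1) A 2 = (Module.finrank K A).choose 2 := by omega
    have h6 : NN A v = A := Submodule.eq_of_le_of_finrank_eq (NN_le _ _) (by omega)
    have h7 := ih h5
    have hBB : BB A = ⊥ := by
      rw [eq_bot_iff, BB, Submodule.span_le]
      rintro _ ⟨a, ha, b, hb, rfl⟩
      exact h7 a ha b hb
    have h8 : ∀ a ∈ A, ⁅v, a⁆ = 0 := by
      intro a ha
      rw [← h6] at ha
      have := ha.2
      rw [hBB] at this
      exact (Submodule.mem_bot K).1 this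
    intro a' ha' b' hb'
    obtain ⟨a, ha, s', hs', rfl⟩ := Submodule.mem_sup.1 ha'
    obtain ⟨s, rfl⟩ := Submodule.mem_span_singleton.1 hs'
    obtain ⟨b, hb, t', ht', rfl⟩ := Submodule.mem_sup.1 hb'
    obtain ⟨t, rfl⟩ := Submodule.mem_span_singleton.1 ht'
    have h9 : ⁅a, v⁆ = 0 := by
      rw [← lie_skew, h8 a ha, neg_zero]
    simp [h7 a ha b hb, h8 b hb, h9]

lemma lie_zero_of_one (h1 : ∀ a ∈ ℳ 1, ∀ b ∈ ℳ 1, ⁅a, b⁆ = 0) (a b : L) : ⁅a, b⁆ = 0 := by
  have step : ∀ c : L, (∀ b ∈ ℳ 1, ⁅c, b⁆ = 0) → ∀ b : L, ⁅c, b⁆ = 0 := by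
    intro c hc b
    let S : LieSubalgebra K L :=
      { carrier := {b | ⁅c, b⁆ = 0}
        add_mem' := by
          intro x y hx hy
          change ⁅c, x + y⁆ = 0
          rw [lie_add, hx, hy, add_zero]
        zero_mem' := lie_zero c
        smul_mem' := by
          intro t x hx
          change ⁅c, t • x⁆ = 0
          rw [lie_smul, hx, smul_zero]
        lie_mem' := by
          intro x y hx hy
          change ⁅c, ⁅x, y⁆⁆ = 0
          have hx' : ⁅c, x⁆ = 0 := hx
          have hy' : ⁅c, y⁆ = 0 := hy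
          rw [leibniz_lie, hx', hy', zero_lie, lie_zero, add_zero] }
    have hS : LieSubalgebra.lieSpan K L (ℳ 1 : Set L) ≤ S := by
      rw [LieSubalgebra.lieSpan_le]
      intro x hx
      exact hc x hx
    rw [h.standard] at hS
    exact hS (LieSubalgebra.mem_top b)
  refine step a (fun b hb => ?_) b
  rw [← lie_skew, step b (fun c hc => h1 b hb c hc) a, neg_zero]

lemma xn_of_abelian (hab : ∀ a b : L, ⁅a, b⁆ = 0) : ∀ (m : ℕ) (W : Submodule K L), W ≤ ℳ 1 →
    xn (ℳ 1) W m = (Module.finrank K W).choose m := by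
  intro m
  induction m with
  | zero =>
    intro W hW
    rw [xn_zero h hW, Nat.choose_zero_right]
  | succ m ihm =>
    refine dim_induction h ?_ ?_
    · rw [xn_bot, finrank_bot, Nat.choose_zero_succ]
    · intro A v hA hv hvA ih
      have hfA := fin_of_le h hA
      have hN : NN A v = A := by
        refine le_antisymm (NN_le _ _) fun a ha => ⟨ha, ?_⟩
        rw [hab]
        exact Submodule.zero_mem _
      rw [xn_succ h hA hv hvA, finrank_sup_span hvA, Nat.choose_succ_succ', add_comm, hN, ih,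
        ihm A hA]

theorem omega_eq_zero_iff (hK : Big ℳ (ℳ 1))
    (n : ℕ) (hn : HasCd K L (n + 2)) :
    (((n + 2 : ℕ) : ℤ) - 1) * (betti K L 1 : ℤ) ^ 2 -
        2 * ((n + 2 : ℕ) : ℤ) * (betti K L 2 : ℤ) = 0 ↔ ∀ a b : L, ⁅a, b⁆ = 0 := by
  have h1 : betti K L 1 = Module.finrank K (ℳ 1) := by
    rw [betti_eq h, xn_one h le_rfl]
  have h2 : betti K L 2 = xn (ℳ 1) (ℳ 1) 2 := betti_eq h 1
  have hch : ∀ d : ℕ, (2 * (d + 1).choose 2 : ℤ) = (d + 1) * d := by
    intro d
    have h3 : 2 * (d + 1).choose 2 = (d + 1) * d := by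
      rw [Nat.choose_two_right, mul_comm, Nat.div_mul_cancel]
      · rw [Nat.add_sub_cancel]
      · exact (Nat.even_mul_pred_self (d + 1)).two_dvd
    exact_mod_cast h3
  constructor
  · intro h0
    have h3 := omega_ge h hK (n + 2) hn
    rw [h0] at h3
    have h4 : (betti K L 1 : ℤ) = ((n + 2 : ℕ) : ℤ) := by
      have h5 : ((betti K L 1 : ℤ) - ((n + 2 : ℕ) : ℤ)) ^ 2 ≤ 0 := by
        push_cast at h3 ⊢
        nlinarith [sq_nonneg ((betti K L 1 : ℤ) - (n + 2))]
      have h6 : ((betti K L 1 : ℤ) - ((n + 2 : ℕ) : ℤ)) = 0 := by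
        nlinarith [sq_nonneg ((betti K L 1 : ℤ) - ((n + 2 : ℕ) : ℤ)), pow_eq_zero_iff (n := 2)
          (two_ne_zero) (a := ((betti K L 1 : ℤ) - ((n + 2 : ℕ) : ℤ)))]
      linarith
    have h5 : betti K L 1 = n + 2 := by exact_mod_cast h4
    have h6 : betti K L 2 = (n + 2).choose 2 := by
      have h7 := hch (n + 1)
      rw [h4] at h0
      have h8 : ((n : ℤ) + 2) * (2 * (betti K L 2 : ℤ) - (n + 2) * (n + 1)) = 0 := by
        push_cast at h0
        linarith
      have h9 : (2 * (betti K L 2 : ℤ) - (n + 2) * (n + 1)) = 0 := by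
        rcases mul_eq_zero.1 h8 with h10 | h10
        · omega
        · exact h10
      push_cast at h7
      have h10 : (betti K L 2 : ℤ) = ((n + 2).choose 2 : ℕ) := by
        have : ((n + 1 + 1).choose 2 : ℤ) = ((n + 2).choose 2 : ℕ) := rfl
        linarith
      exact_mod_cast h10
    refine lie_zero_of_one h (abelian_of_xn_two h (ℳ 1) le_rfl ?_)
    rw [← h2, ← h1, h5, h6]
  · intro hab
    have hx := xn_of_abelian h hab
    have hd : betti K L 1 = n + 2 := by
      have h3 : (betti K L 1).choose (n + 2) ≠ 0 := by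
        rw [h1, ← hx (n + 2) (ℳ 1) le_rfl]
        have h4 := (nontrivial_coh_iff h (n + 1)).1 hn.1
        rw [betti_eq h] at h4
        exact h4
      have h4 : n + 2 ≤ betti K L 1 := by
        by_contra hlt
        exact h3 (Nat.choose_eq_zero_of_lt (by omega))
      have h5 : betti K L 1 ≤ n + 2 := by
        obtain ⟨e, he⟩ : ∃ e, betti K L 1 = e + 1 := ⟨betti K L 1 - 1, by omega⟩
        have h6 : Nontrivial (Coh K L (e + 1)) := by
          rw [nontrivial_coh_iff h, betti_eq h, hx _ _ le_rfl, ← h1, he, Nat.choose_self]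
          exact one_ne_zero
        have := hn.2 h6
        omega
      omega
    have h3 : betti K L 2 = (n + 2).choose 2 := by
      rw [h2, hx _ _ le_rfl, ← h1, hd]
    rw [h3, hd]
    have h7 := hch (n + 1)
    push_cast at h7 ⊢
    have h8 : ((n + 1 + 1).choose 2 : ℤ) = ((n + 2).choose 2 : ℕ) := rfl
    rw [h8] at h7
    linear_combination (-(n : ℤ) - 2) * h7

end Pool.Agent.Y712.BK
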