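import Pool.Agent.H89R3.BK.Fin

/-!
# Contractions on the linear resolution of the trivial module
-/

set_option autoImplicit false

namespace Pool.Agent.Y712.BK

open H89R3.BK Matrix

variable {K : Type} [Field K] {L : Type} [LieRing L] [LieAlgebra K L]

/-- linear functionals of degree one -/
def XX (ℳ : ℕ → Submodule K L) : Submodule K (Module.Dual K L) where
  carrier := {x | ∀ i, i ≠ 1 → ∀ a ∈ ℳ i, x a = 0}
  add_mem' := by
    intro x y hx hy i hi a ha
    rw [LinearMap.add_apply, hx i hi a ha, hy i hi a ha, add_zero]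
  zero_mem' := by
    intro i _ a _
    rfl
  smul_mem' := by
    intro c x hx i hi a ha
    rw [LinearMap.smul_apply, hx i hi a ha, smul_zero]

variable {ℳ : ℕ → Submodule K L}

lemma XX_lie (h : IsLieGrading K ℳ) (x : XX ℳ) (a b : L) : (x : Module.Dual K L) ⁅a, b⁆ = 0 := by
  revert b
  refine grading_induction h (p := fun a => ∀ b, (x : Module.Dual K L) ⁅a, b⁆ = 0) ?_ ?_ ?_ a
  · intro i a ha b
    refine grading_induction h (p := fun b => (x : Module.Dual K L) ⁅a, b⁆ = 0) ?_ ?_ ?_ b
    · intro j b hb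
      by_cases hi : i = 0
      · subst hi
        rw [h.zero_eq, Submodule.mem_bot] at ha
        rw [ha, zero_lie, map_zero]
      by_cases hj : j = 0
      · subst hj
        rw [h.zero_eq, Submodule.mem_bot] at hb
        rw [hb, lie_zero, map_zero]
      exact x.2 (i + j) (by omega) _ (h.lie_mem i j a ha b hb)
    · rw [lie_zero, map_zero]
    · intro b c hb hc
      rw [lie_add, map_add, hb, hc, add_zero]
  · intro b
    rw [zero_lie, map_zero]
  · intro a c ha hc b
    rw [add_lie, map_add, ha, hc, add_zero]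

/-- the projection to the component of degree one -/
lemma exists_pr (h : IsLieGrading K ℳ) : ∃ p : L →ₗ[K] L, (∀ a ∈ ℳ 1, p a = a) ∧
    ∀ i, i ≠ 1 → ∀ a ∈ ℳ i, p a = 0 := by
  classical
  let e : (DirectSum ℕ fun i => ℳ i) ≃ₗ[K] L :=
    LinearEquiv.ofBijective (DirectSum.coeLinearMap ℳ) h.internal
  let g : (DirectSum ℕ fun i => ℳ i) →ₗ[K] L :=
    DirectSum.toModule K ℕ _ fun i => if i = 1 then (ℳ i).subtype else 0
  have he : ∀ i, ∀ x (hx : x ∈ ℳ i), e.symm x = DirectSum.lof K ℕ (fun i => ℳ i) i ⟨x, hx⟩ := by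
    intro i x hx
    rw [LinearEquiv.symm_apply_eq]
    change x = DirectSum.coeLinearMap ℳ _
    rw [DirectSum.coeLinearMap_lof]
  refine ⟨g.comp e.symm.toLinearMap, ?_, ?_⟩
  · intro a ha
    rw [LinearMap.comp_apply, LinearEquiv.coe_coe, he 1 a ha, DirectSum.toModule_lof, if_pos rfl]
    rfl
  · intro i hi a ha
    rw [LinearMap.comp_apply, LinearEquiv.coe_coe, he i a ha, DirectSum.toModule_lof, if_neg hi]
    rfl

lemma exists_XX (h : IsLieGrading K ℳ) {W : Submodule K L} (hW : W ≤ ℳ 1) {v : L}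
    (hv : v ∈ ℳ 1) (hvW : v ∉ W) : ∃ x : XX ℳ, (∀ w ∈ W, (x : Module.Dual K L) w = 0) ∧
      (x : Module.Dual K L) v = 1 := by
  obtain ⟨p, hp1, hp2⟩ := exists_pr h
  obtain ⟨f, hf, hf'⟩ := Submodule.exists_dual_map_eq_bot_of_notMem (p := W) hvW inferInstance
  refine ⟨⟨(f v)⁻¹ • f.comp p, ?_⟩, ?_, ?_⟩
  · intro i hi a ha
    rw [LinearMap.smul_apply, LinearMap.comp_apply, hp2 i hi a ha, map_zero, smul_zero]
  · intro x hx
    have : f x = 0 := by
      have h1 : f x ∈ Submodule.map f W := Submodule.mem_map_of_mem hx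
      rw [hf'] at h1
      exact (Submodule.mem_bot K).1 h1
    change ((f v)⁻¹ • f.comp p) x = 0
    rw [LinearMap.smul_apply, LinearMap.comp_apply, hp1 x (hW hx), this, smul_zero]
  · change ((f v)⁻¹ • f.comp p) v = 1
    rw [LinearMap.smul_apply, LinearMap.comp_apply, hp1 v hv, smul_eq_mul, inv_mul_cancel₀ hf]

/-- separation -/
lemma mem_of_XX (h : IsLieGrading K ℳ) {W : Submodule K L} (hW : W ≤ ℳ 1) {v : L}
    (hv : v ∈ ℳ 1) (hx : ∀ x : XX ℳ, (∀ w ∈ W, (x : Module.Dual K L) w = 0) →
      (x : Module.Dual K L) v = 0) : v ∈ W := by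
  by_contra hvW
  obtain ⟨x, hx1, hx2⟩ := exists_XX h hW hv hvW
  rw [hx x hx1] at hx2
  exact zero_ne_one hx2

/-- the character of the enveloping algebra -/
noncomputable def chr (h : IsLieGrading K ℳ) (x : XX ℳ) :
    UniversalEnvelopingAlgebra K L →ₐ[K] K :=
  letI : LieRing K := LieRing.ofAssociativeRing
  UniversalEnvelopingAlgebra.lift K
    { (x : Module.Dual K L) with
      map_lie' := by
        intro a b
        rw [LieRing.of_associative_ring_bracket, mul_comm, sub_self]
        exact XX_lie h x a b }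

lemma chr_ι (h : IsLieGrading K ℳ) (x : XX ℳ) (a : L) :
    chr h x (UniversalEnvelopingAlgebra.ι K a) = (x : Module.Dual K L) a := by
  let _ : LieRing K := LieRing.ofAssociativeRing
  exact UniversalEnvelopingAlgebra.lift_ι_apply K
    ({ (x : Module.Dual K L) with
      map_lie' := by
        intro a b
        rw [LieRing.of_associative_ring_bracket, mul_comm, sub_self]
        exact XX_lie h x a b } : L →ₗ⁅K⁆ K) a

lemma chr_LI (h : IsLieGrading K ℳ) (x : XX ℳ) {W : Submodule K L}
    (hx : ∀ w ∈ W, (x : Module.Dual K L) w = 0) {u : UniversalEnvelopingAlgebra K L}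
    (hu : u ∈ LI W) : chr h x u = 0 := by
  induction hu using Submodule.span_induction with
  | mem z hz =>
    obtain ⟨a, ha, rfl⟩ := hz
    rw [chr_ι, hx a ha]
  | zero => exact map_zero _
  | add x y _ _ hx hy => rw [map_add, hx, hy, add_zero]
  | smul a x _ hx => rw [smul_eq_mul, map_mul, hx, mul_zero]

variable (h : IsLieGrading K ℳ) (R : LinRes (ℳ 1) (ℳ 1))

/-- the contraction -/
noncomputable def con (m : ℕ) : XX ℳ →ₗ[K] (R.X (m + 1) → K) →ₗ[K] (R.X m → K) :=
  LinearMap.mk₂ K (fun x t => t ᵥ* (R.D m).map (chr h x))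
    (by
      intro x y t
      ext j
      rw [Pi.add_apply]
      simp only [vecMul, dotProduct, Matrix.map_apply]
      rw [← Finset.sum_add_distrib]
      refine Finset.sum_congr rfl fun i _ => ?_
      obtain ⟨a, ha, hs⟩ := mem_S1.1 (R.lin m i j)
      rw [← hs, chr_ι, chr_ι, chr_ι, Submodule.coe_add, LinearMap.add_apply, mul_add])
    (by
      intro c x t
      ext j
      rw [Pi.smul_apply]
      simp only [vecMul, dotProduct, Matrix.map_apply]
      rw [Finset.smul_sum]
      refine Finset.sum_congr rfl fun i _ => ?_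
      obtain ⟨a, ha, hs⟩ := mem_S1.1 (R.lin m i j)
      rw [← hs, chr_ι, chr_ι, Submodule.coe_smul, LinearMap.smul_apply, smul_eq_mul, smul_eq_mul]
      ring)
    (by
      intro x s t
      exact add_vecMul _ _ _)
    (by
      intro c x t
      exact smul_vecMul _ _ _)

lemma con_apply (m : ℕ) (x : XX ℳ) (t : R.X (m + 1) → K) :
    con h R m x t = t ᵥ* (R.D m).map (chr h x) := rfl

/-- the linear elements -/
lemma exists_lin (m : ℕ) (t : R.X (m + 1) → K) : ∃ b : R.X m → L, (∀ j, b j ∈ ℳ 1) ∧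
    (∀ j, (∑ i, algebraMap K (UniversalEnvelopingAlgebra K L) (t i) * R.D m i j) =
      UniversalEnvelopingAlgebra.ι K (b j)) ∧
    ∀ (x : XX ℳ) j, con h R m x t j = (x : Module.Dual K L) (b j) := by
  choose a ha hs using fun i j => mem_S1.1 (R.lin m i j)
  refine ⟨fun j => ∑ i, t i • a i j, ?_, ?_, ?_⟩
  · intro j
    exact Submodule.sum_mem _ fun i _ => Submodule.smul_mem _ _ (ha i j)
  · intro j
    rw [map_sum]
    refine Finset.sum_congr rfl fun i _ => ?_
    rw [map_smul, hs, Algebra.smul_def]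
  · intro x j
    rw [con_apply, map_sum]
    simp only [vecMul, dotProduct, Matrix.map_apply]
    refine Finset.sum_congr rfl fun i _ => ?_
    rw [map_smul, ← hs, chr_ι, smul_eq_mul]

lemma con_con_self (m : ℕ) (x : XX ℳ) (t : R.X (m + 2) → K) :
    con h R m x (con h R (m + 1) x t) = 0 := by
  rw [con_apply, con_apply, vecMul_vecMul]
  have h1 : (R.D (m + 1)).map (chr h x) * (R.D m).map (chr h x) = 0 := by
    have h2 := Matrix.map_mul (L := R.D (m + 1)) (M := R.D m) (f := (chr h x).toRingHom)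
    rw [R.comp m] at h2
    have h3 : (0 : Matrix (R.X (m + 2)) (R.X m) (UniversalEnvelopingAlgebra K L)).map
        (chr h x).toRingHom = 0 := Matrix.map_zero _ (map_zero _)
    rw [h3] at h2
    exact h2.symm
  rw [h1, vecMul_zero]

lemma con_con (m : ℕ) (x y : XX ℳ) (t : R.X (m + 2) → K) :
    con h R m x (con h R (m + 1) y t) = - con h R m y (con h R (m + 1) x t) := by
  have h1 := con_con_self h R m (x + y) t
  simp only [map_add, LinearMap.add_apply] at h1
  rw [con_con_self, con_con_self, zero_add, add_zero] at h1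
  exact eq_neg_of_add_eq_zero_left (by rw [← h1]; abel)

/-- minimality -/
lemma con_inj (m : ℕ) (t : R.X (m + 1) → K) (ht : ∀ x, con h R m x t = 0) : t = 0 := by
  obtain ⟨b, hb1, hb2, hb3⟩ := exists_lin h R m t
  have hb : ∀ j, b j = 0 := by
    intro j
    have := mem_of_XX h (bot_le (a := ℳ 1)) (hb1 j) (by
      intro x _
      rw [← hb3, ht x]
      rfl)
    exact (Submodule.mem_bot K).1 this
  have h1 : (fun i => algebraMap K (UniversalEnvelopingAlgebra K L) (t i)) ᵥ* R.D m = 0 := by
    ext j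
    simp only [vecMul, dotProduct, Pi.zero_apply]
    rw [hb2, hb, map_zero]
  obtain ⟨u', hu'⟩ := R.exact m _ h1
  ext i
  have h2 := congrArg (aug K L) (congrFun hu' i)
  simp only [vecMul, dotProduct, map_sum, map_mul] at h2
  rw [Finset.sum_eq_zero (fun j _ => by rw [aug_S1 (R.lin (m + 1) j i), mul_zero]),
    AlgHom.commutes] at h2
  exact h2.symm

/-- the spaces -/
noncomputable def TT (W : Submodule K L) : ∀ m, Submodule K (R.X m → K)
  | 0 => ⊤
  | m + 1 => ⨅ (x : XX ℳ) (_ : ∀ w ∈ W, (x : Module.Dual K L) w = 0), LinearMap.ker (con h R m x)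

lemma mem_TT {W : Submodule K L} {m : ℕ} {t : R.X (m + 1) → K} : t ∈ TT h R W (m + 1) ↔
    ∀ x : XX ℳ, (∀ w ∈ W, (x : Module.Dual K L) w = 0) → con h R m x t = 0 := by
  simp only [TT, Submodule.mem_iInf, LinearMap.mem_ker]

lemma TT_mono {W W' : Submodule K L} (hW : W ≤ W') (m : ℕ) : TT h R W m ≤ TT h R W' m := by
  cases m with
  | zero => exact le_rfl
  | succ m =>
    intro t ht
    rw [mem_TT] at ht ⊢
    exact fun x hx => ht x fun w hw => hx w (hW hw)

lemma TT_bot (m : ℕ) : TT h R (⊥ : Submodule K L) (m + 1) = ⊥ := by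
  rw [eq_bot_iff]
  intro t ht
  rw [mem_TT] at ht
  rw [Submodule.mem_bot]
  refine con_inj h R m t fun x => ht x ?_
  intro w hw
  rw [(Submodule.mem_bot K).1 hw, map_zero]

lemma TT_top (m : ℕ) : TT h R (ℳ 1) m = ⊤ := by
  cases m with
  | zero => rfl
  | succ m =>
    rw [eq_top_iff]
    intro t _
    rw [mem_TT]
    intro x hx
    obtain ⟨b, hb1, hb2, hb3⟩ := exists_lin h R m t
    ext j
    rw [hb3, hx _ (hb1 j)]
    rfl

/-- contractions preserve the spaces -/
lemma con_mem (m : ℕ) {W : Submodule K L} (y : XX ℳ) {t : R.X (m + 1) → K}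
    (ht : t ∈ TT h R W (m + 1)) : con h R m y t ∈ TT h R W m := by
  cases m with
  | zero => exact Submodule.mem_top
  | succ m =>
    rw [mem_TT] at ht ⊢
    intro x hx
    rw [con_con, ht x hx, map_zero, neg_zero]

end Pool.Agent.Y712.BK
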