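import Pool.Agent.Y712.BK.Abel

/-!
# Free products and HNN extensions
-/

set_option autoImplicit false

namespace Pool.Agent.Y712.BK

open H89R3.BK

variable {K : Type} [Field K] {L : Type} [LieRing L] [LieAlgebra K L]

/-- The subalgebra generated by `B` is the free product of the subalgebra generated by `N` and a
free Lie algebra on a complement of `N` in `B`: a homomorphism from the former, together with a
linear extension to `B` of its restriction to `N`, extends uniquely to the subalgebra generated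
by `B`. -/
def FreeOver (N B : Submodule K L) : Prop :=
  ∀ (E : Type) [LieRing E] [LieAlgebra K E]
    (φ : LieSubalgebra.lieSpan K L (N : Set L) →ₗ⁅K⁆ E) (f : B →ₗ[K] E),
    (∀ (x : L) (hN : x ∈ N) (hB : x ∈ B), f ⟨x, hB⟩ = φ ⟨x, LieSubalgebra.subset_lieSpan hN⟩) →
      ∃! ψ : LieSubalgebra.lieSpan K L (B : Set L) →ₗ⁅K⁆ E,
        ∀ (x : L) (hB : x ∈ B), ψ ⟨x, LieSubalgebra.subset_lieSpan hB⟩ = f ⟨x, hB⟩

/-- The subalgebra generated by `B` and `v` is the HNN extension of the subalgebra generated by `B`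
with respect to the derivation `[v, ·]` on the subalgebra generated by `NN B v`: a homomorphism
`ψ` from the subalgebra generated by `B` to `E` and an element `e` of `E` with
`⁅e, ψ n⁆ = ψ ⁅v, n⁆` for `n` in `NN B v` extend uniquely to a homomorphism from the subalgebra
generated by `B` and `v` with `v ↦ e`. -/
def HNNOver (B : Submodule K L) (v : L) : Prop :=
  ∀ (E : Type) [LieRing E] [LieAlgebra K E]
    (ψ : LieSubalgebra.lieSpan K L (B : Set L) →ₗ⁅K⁆ E) (e : E),
    (∀ (n : L) (hn : n ∈ NN B v) (hv : ⁅v, n⁆ ∈ LieSubalgebra.lieSpan K L (B : Set L)),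
      ⁅e, ψ ⟨n, LieSubalgebra.subset_lieSpan hn.1⟩⁆ = ψ ⟨⁅v, n⁆, hv⟩) →
      ∃! Ψ : LieSubalgebra.lieSpan K L ((B ⊔ K ∙ v : Submodule K L) : Set L) →ₗ⁅K⁆ E,
        (∀ (x : L) (hB : x ∈ B) (hx : x ∈ B ⊔ K ∙ v), Ψ ⟨x, LieSubalgebra.subset_lieSpan hx⟩ =
          ψ ⟨x, LieSubalgebra.subset_lieSpan hB⟩) ∧
        ∀ hv : v ∈ B ⊔ K ∙ v, Ψ ⟨v, LieSubalgebra.subset_lieSpan hv⟩ = e

/-- quadratic relations of `B` are respected by `f` -/
def Resp {E : Type} [LieRing E] [LieAlgebra K E] (f : L →ₗ[K] E) (B : Submodule K L) : Prop :=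
  ∀ (J : Type) [Fintype J] (c : J → K) (a b : J → L), (∀ j, a j ∈ B) → (∀ j, b j ∈ B) →
    ∑ j, c j • ⁅a j, b j⁆ = 0 → ∑ j, c j • ⁅f (a j), f (b j)⁆ = 0

section

variable {E : Type} [LieRing E] [LieAlgebra K E]

lemma hom_unique {B : Submodule K L} {ψ ψ' : LieSubalgebra.lieSpan K L (B : Set L) →ₗ⁅K⁆ E}
    (hψ : ∀ (x : L) (hB : x ∈ B), ψ ⟨x, LieSubalgebra.subset_lieSpan hB⟩ =
      ψ' ⟨x, LieSubalgebra.subset_lieSpan hB⟩) : ψ = ψ' := by
  let S : LieSubalgebra K (LieSubalgebra.lieSpan K L (B : Set L)) :=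
    { carrier := {x | ψ x = ψ' x}
      add_mem' := by
        intro x y hx hy
        change ψ (x + y) = ψ' (x + y)
        rw [map_add, map_add, hx, hy]
      zero_mem' := by
        change ψ 0 = ψ' 0
        rw [map_zero, map_zero]
      smul_mem' := by
        intro c x hx
        change ψ (c • x) = ψ' (c • x)
        rw [map_smul, map_smul, hx]
      lie_mem' := by
        intro x y hx hy
        change ψ ⁅x, y⁆ = ψ' ⁅x, y⁆
        have hx' : ψ x = ψ' x := hx
        have hy' : ψ y = ψ' y := hy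
        rw [LieHom.map_lie, LieHom.map_lie, hx', hy'] }
  have hS : S = ⊤ := eq_top_of_lieSpan S fun x hx => hψ x hx
  ext x
  have : x ∈ S := by
    rw [hS]
    trivial
  exact this

/-- homomorphisms from subalgebras with quadratic relations -/
lemma exists_hom {B : Submodule K L} (hq : QuadraticOn K B) (f : L →ₗ[K] E) (hf : Resp f B) :
    ∃ ψ : LieSubalgebra.lieSpan K L (B : Set L) →ₗ⁅K⁆ E,
      ∀ (x : L) (hB : x ∈ B), ψ ⟨x, LieSubalgebra.subset_lieSpan hB⟩ = f x := by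
  classical
  obtain ⟨d, w, hk⟩ := hq
  set Λ := FreeLieAlgebra.lift K (fun i => (w i : L)) with hΛ
  let F : FreeLieAlgebra K (Fin d) →ₗ⁅K⁆ E := FreeLieAlgebra.lift K (fun i => f (w i : L))
  have hker : ∀ z, Λ z = 0 → F z = 0 := by
    have h1 : Λ.ker ≤ F.ker := by
      rw [hk, LieSubmodule.lieSpan_le]
      rintro z ⟨hz1, hz2⟩
      rw [Submodule.mem_span_range_iff_exists_fun] at hz2
      obtain ⟨r, rfl⟩ := hz2
      rw [LieHom.mem_ker] at hz1
      change _ ∈ F.ker
      rw [LieHom.mem_ker]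
      have h2 : ∀ p : Fin d × Fin d, Λ ⁅FreeLieAlgebra.of K p.1, FreeLieAlgebra.of K p.2⁆ =
          ⁅(w p.1 : L), (w p.2 : L)⁆ := by
        intro p
        rw [LieHom.map_lie, hΛ, FreeLieAlgebra.lift_of_apply, FreeLieAlgebra.lift_of_apply]
      have h3 : ∀ p : Fin d × Fin d, F ⁅FreeLieAlgebra.of K p.1, FreeLieAlgebra.of K p.2⁆ =
          ⁅f (w p.1 : L), f (w p.2 : L)⁆ := by
        intro p
        rw [LieHom.map_lie, FreeLieAlgebra.lift_of_apply, FreeLieAlgebra.lift_of_apply]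
      rw [map_sum] at hz1 ⊢
      simp only [map_smul, h2] at hz1
      simp only [map_smul, h3]
      exact hf _ r (fun p => (w p.1 : L)) (fun p => (w p.2 : L)) (fun p => (w p.1).2)
        (fun p => (w p.2).2) hz1
    intro z hz
    have h2 : z ∈ Λ.ker := LieHom.mem_ker.2 hz
    exact LieHom.mem_ker.1 (h1 h2)
  -- elements of `B`
  have hB : ∀ x ∈ B, ∃ z, Λ z = x ∧ F z = f x := by
    intro x hx
    refine ⟨∑ i, w.repr ⟨x, hx⟩ i • FreeLieAlgebra.of K i, ?_, ?_⟩
    · rw [map_sum]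
      have h1 := congrArg (Submodule.subtype B) (w.sum_repr ⟨x, hx⟩)
      rw [map_sum] at h1
      simp only [map_smul, Submodule.subtype_apply] at h1
      refine Eq.trans (Finset.sum_congr rfl fun i _ => ?_) h1
      rw [map_smul, hΛ, FreeLieAlgebra.lift_of_apply]
    · rw [map_sum]
      have h1 := congrArg (fun y : B => f (y : L)) (w.sum_repr ⟨x, hx⟩)
      simp only [Submodule.coe_sum, Submodule.coe_smul, map_sum, map_smul] at h1
      refine Eq.trans (Finset.sum_congr rfl fun i _ => ?_) h1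
      rw [map_smul, FreeLieAlgebra.lift_of_apply]
  have hsurj : ∀ y : LieSubalgebra.lieSpan K L (B : Set L), ∃ z, Λ z = y := by
    intro y
    have h1 : LieSubalgebra.lieSpan K L (B : Set L) ≤ Λ.range := by
      rw [LieSubalgebra.lieSpan_le]
      intro x hx
      obtain ⟨z, hz, -⟩ := hB x hx
      exact ⟨z, hz⟩
    exact h1 y.2
  choose g hg using hsurj
  have hFg : ∀ (y : LieSubalgebra.lieSpan K L (B : Set L)) z, Λ z = (y : L) → F (g y) = F z := by
    intro y z hz
    rw [← sub_eq_zero, ← map_sub]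
    apply hker
    rw [map_sub, hg, hz, sub_self]
  refine ⟨
    { toFun := fun y => F (g y)
      map_add' := by
        intro x y
        rw [← map_add]
        apply hFg
        rw [map_add, hg, hg]
        rfl
      map_smul' := by
        intro c x
        rw [RingHom.id_apply, ← map_smul]
        apply hFg
        rw [map_smul, hg]
        rfl
      map_lie' := by
        intro x y
        rw [← LieHom.map_lie]
        apply hFg
        rw [LieHom.map_lie, hg, hg]
        rfl }, ?_⟩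
  intro x hx
  obtain ⟨z, hz1, hz2⟩ := hB x hx
  rw [← hz2]
  exact hFg _ z hz1

/-- one more generator without relations -/
lemma resp_step {C : Submodule K L} {u : L} (hN : NN C u = ⊥) (f : L →ₗ[K] E)
    (hf : Resp f C) : Resp f (C ⊔ K ∙ u) := by
  intro J _ c a b ha hb h0
  have hdec : ∀ x ∈ C ⊔ K ∙ u, ∃ y ∈ C, ∃ s : K, x = y + s • u := by
    intro x hx
    obtain ⟨y, hy, z, hz, rfl⟩ := Submodule.mem_sup.1 hx
    obtain ⟨s, rfl⟩ := Submodule.mem_span_singleton.1 hz
    exact ⟨y, hy, s, rfl⟩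
  choose a' ha' s hs using fun j => hdec (a j) (ha j)
  choose b' hb' t ht using fun j => hdec (b j) (hb j)
  set n : L := ∑ j, c j • (s j • b' j - t j • a' j) with hn
  have hnC : n ∈ C := Submodule.sum_mem _ fun j _ => Submodule.smul_mem _ _
    (Submodule.sub_mem _ (Submodule.smul_mem _ _ (hb' j)) (Submodule.smul_mem _ _ (ha' j)))
  have e1 : ∀ j, ⁅a j, b j⁆ = ⁅a' j, b' j⁆ + ⁅u, s j • b' j - t j • a' j⁆ := by
    intro j
    rw [hs, ht]
    simp only [lie_add, add_lie, lie_smul, smul_lie, lie_self, smul_zero, add_zero, lie_sub]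
    rw [← lie_skew u (a' j)]
    simp only [smul_neg]
    abel
  have e2 : ∀ j, ⁅f (a j), f (b j)⁆ = ⁅f (a' j), f (b' j)⁆ + ⁅f u, f (s j • b' j - t j • a' j)⁆ := by
    intro j
    rw [hs, ht]
    simp only [map_add, map_smul, map_sub, lie_add, add_lie, lie_smul, smul_lie, lie_self,
      smul_zero, add_zero, lie_sub]
    rw [← lie_skew (f u) (f (a' j))]
    simp only [smul_neg]
    abel
  have h1 : ∑ j, c j • ⁅a' j, b' j⁆ + ⁅u, n⁆ = 0 := by
    rw [← h0, hn, lie_sum, ← Finset.sum_add_distrib]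
    refine Finset.sum_congr rfl fun j _ => ?_
    rw [e1, smul_add, lie_smul]
  have hn0 : n = 0 := by
    have h2 : n ∈ NN C u := by
      refine ⟨hnC, ?_⟩
      rw [eq_neg_of_add_eq_zero_right h1]
      exact Submodule.neg_mem _ (Submodule.sum_mem _ fun j _ => Submodule.smul_mem _ _
        (Submodule.subset_span ⟨_, ha' j, _, hb' j, rfl⟩))
    rw [hN] at h2
    exact (Submodule.mem_bot K).1 h2
  rw [hn0, lie_zero, add_zero] at h1
  have h2 := hf J c a' b' ha' hb' h1
  have h3 : ∑ j, c j • ⁅f (a j), f (b j)⁆ = ∑ j, c j • ⁅f (a' j), f (b' j)⁆ + ⁅f u, f n⁆ := by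
    rw [hn, map_sum, lie_sum, ← Finset.sum_add_distrib]
    refine Finset.sum_congr rfl fun j _ => ?_
    rw [e2, smul_add, map_smul, lie_smul]
  rw [h3, h2, hn0, map_zero, lie_zero, add_zero]

end

variable {ℳ : ℕ → Submodule K L} (h : IsBlochKato K ℳ)

include h

/-- **free products** -/
theorem freeOver_of {N B : Submodule K L} (hB : B ≤ ℳ 1) (hNB : N ≤ B)
    (hrel : ∀ C : Submodule K L, N ≤ C → C ≤ B → ∀ u ∈ B, u ∉ C → NN C u = ⊥) :
    FreeOver N B := by
  intro E _ _ φ f hf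
  obtain ⟨f', hf'⟩ := LinearMap.exists_extend (p := B) f
  have hf1 : ∀ (x : L) (hx : x ∈ B), f' x = f ⟨x, hx⟩ := fun x hx => LinearMap.congr_fun hf' ⟨x, hx⟩
  have hN : Resp f' N := by
    intro J _ c a b ha hb h0
    have h1 : ∀ j, ⁅f' (a j), f' (b j)⁆ = φ ⁅(⟨a j, LieSubalgebra.subset_lieSpan (ha j)⟩ :
        LieSubalgebra.lieSpan K L (N : Set L)), (⟨b j, LieSubalgebra.subset_lieSpan (hb j)⟩ :
        LieSubalgebra.lieSpan K L (N : Set L))⁆ := by
      intro j
      rw [LieHom.map_lie, hf1 _ (hNB (ha j)), hf1 _ (hNB (hb j)), hf _ (ha j), hf _ (hb j)]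
    simp only [h1]
    have h2 : ∑ j, c j • ⁅(⟨a j, LieSubalgebra.subset_lieSpan (ha j)⟩ :
        LieSubalgebra.lieSpan K L (N : Set L)), (⟨b j, LieSubalgebra.subset_lieSpan (hb j)⟩ :
        LieSubalgebra.lieSpan K L (N : Set L))⁆ = 0 := by
      apply Subtype.ext
      exact (map_sum (LieSubalgebra.lieSpan K L (N : Set L)).toSubmodule.subtype _ _).trans h0
    have h3 := congrArg φ h2
    rw [map_sum, map_zero] at h3
    rw [← h3]
    exact Finset.sum_congr rfl fun j _ => (map_smul φ _ _).symm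
  have hRB : Resp f' B := by
    have key := flag_induction h hB (p := fun _ A => N ≤ A → Resp f' A → Resp f' B)
      (fun _ hB' => hB') (by
        intro k A hA u hu huA ih hNA hRA
        exact ih (hNA.trans le_sup_left) (resp_step (hrel A hNA hA u hu huA) f' hRA))
    obtain ⟨k, hk⟩ := exists_add h hB hNB
    exact key k N hNB hk le_rfl hN
  obtain ⟨ψ, hψ⟩ := exists_hom (h.quadratic B hB) f' hRB
  refine ⟨ψ, fun x hx => by rw [hψ x hx, hf1 x hx], ?_⟩
  intro ψ' hψ'
  refine hom_unique fun x hx => ?_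
  rw [hψ' x hx, hψ x hx, hf1 x hx]

omit h in
lemma BB_le_lieSpan (B : Submodule K L) {x : L} (hx : x ∈ BB B) :
    x ∈ LieSubalgebra.lieSpan K L (B : Set L) := by
  induction hx using Submodule.span_induction with
  | mem x hx =>
    obtain ⟨a, ha, b, hb, rfl⟩ := hx
    exact (LieSubalgebra.lieSpan K L (B : Set L)).lie_mem (LieSubalgebra.subset_lieSpan ha)
      (LieSubalgebra.subset_lieSpan hb)
  | zero => exact (LieSubalgebra.lieSpan K L (B : Set L)).zero_mem
  | add x y _ _ hx hy => exact (LieSubalgebra.lieSpan K L (B : Set L)).add_mem hx hy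
  | smul c x _ hx => exact (LieSubalgebra.lieSpan K L (B : Set L)).smul_mem c hx

/-- **HNN extensions** -/
theorem hnnOver_of {B : Submodule K L} (hB : B ≤ ℳ 1) {v : L} (hv : v ∈ ℳ 1) (hvB : v ∉ B) :
    HNNOver B v := by
  intro E _ _ ψ e he
  obtain ⟨α, hα, hαv⟩ : ∃ α : L →ₗ[K] K, (∀ x ∈ B, α x = 0) ∧ α v = 1 := by
    obtain ⟨x, hx1, hx2⟩ := exists_XX h.toIsLieGrading hB hv hvB
    exact ⟨x, hx1, hx2⟩
  let ψB : B →ₗ[K] E :=
    { toFun := fun x => ψ ⟨x, LieSubalgebra.subset_lieSpan x.2⟩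
      map_add' := fun x y => map_add ψ (⟨x, LieSubalgebra.subset_lieSpan x.2⟩ :
        LieSubalgebra.lieSpan K L (B : Set L)) ⟨y, LieSubalgebra.subset_lieSpan y.2⟩
      map_smul' := fun c x => map_smul ψ c (⟨x, LieSubalgebra.subset_lieSpan x.2⟩ :
        LieSubalgebra.lieSpan K L (B : Set L)) }
  obtain ⟨g, hg⟩ := LinearMap.exists_extend (p := B) ψB
  let f : L →ₗ[K] E := g + α.smulRight (e - g v)
  have hfB : ∀ (x : L) (hx : x ∈ B), f x = ψ ⟨x, LieSubalgebra.subset_lieSpan hx⟩ := by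
    intro x hx
    change g x + α x • (e - g v) = _
    rw [hα x hx, zero_smul, add_zero]
    exact LinearMap.congr_fun hg ⟨x, hx⟩
  have hfv : f v = e := by
    change g v + α v • (e - g v) = e
    rw [hαv, one_smul, add_sub_cancel]
  have hR : Resp f (B ⊔ K ∙ v) := by
    intro J _ c a b ha hb h0
    have hdec : ∀ x ∈ B ⊔ K ∙ v, ∃ y ∈ B, ∃ s : K, x = y + s • v := by
      intro x hx
      obtain ⟨y, hy, z, hz, rfl⟩ := Submodule.mem_sup.1 hx
      obtain ⟨s, rfl⟩ := Submodule.mem_span_singleton.1 hz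
      exact ⟨y, hy, s, rfl⟩
    choose a' ha' s hs using fun j => hdec (a j) (ha j)
    choose b' hb' t ht using fun j => hdec (b j) (hb j)
    set n : L := ∑ j, c j • (s j • b' j - t j • a' j) with hn
    have hnB : n ∈ B := Submodule.sum_mem _ fun j _ => Submodule.smul_mem _ _
      (Submodule.sub_mem _ (Submodule.smul_mem _ _ (hb' j)) (Submodule.smul_mem _ _ (ha' j)))
    have e1 : ∀ j, ⁅a j, b j⁆ = ⁅a' j, b' j⁆ + ⁅v, s j • b' j - t j • a' j⁆ := by
      intro j
      rw [hs, ht]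
      simp only [lie_add, add_lie, lie_smul, smul_lie, lie_self, smul_zero, add_zero, lie_sub]
      rw [← lie_skew v (a' j)]
      simp only [smul_neg]
      abel
    have e2 : ∀ j, ⁅f (a j), f (b j)⁆ = ⁅f (a' j), f (b' j)⁆ +
        ⁅f v, f (s j • b' j - t j • a' j)⁆ := by
      intro j
      rw [hs, ht]
      simp only [map_add, map_smul, map_sub, lie_add, add_lie, lie_smul, smul_lie, lie_self,
        smul_zero, add_zero, lie_sub]
      rw [← lie_skew (f v) (f (a' j))]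
      simp only [smul_neg]
      abel
    have h1 : ∑ j, c j • ⁅a' j, b' j⁆ + ⁅v, n⁆ = 0 := by
      rw [← h0, hn, lie_sum, ← Finset.sum_add_distrib]
      refine Finset.sum_congr rfl fun j _ => ?_
      rw [e1, smul_add, lie_smul]
    have hBB : ∑ j, c j • ⁅a' j, b' j⁆ ∈ BB B :=
      Submodule.sum_mem _ fun j _ => Submodule.smul_mem _ _
        (Submodule.subset_span ⟨_, ha' j, _, hb' j, rfl⟩)
    have h2 : ⁅v, n⁆ ∈ BB B := by
      rw [eq_neg_of_add_eq_zero_right h1]
      exact Submodule.neg_mem _ hBB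
    have hnN : n ∈ NN B v := ⟨hnB, h2⟩
    have h3 : ∑ j, c j • ⁅f (a j), f (b j)⁆ = ∑ j, c j • ⁅f (a' j), f (b' j)⁆ + ⁅f v, f n⁆ := by
      rw [hn, map_sum, lie_sum, ← Finset.sum_add_distrib]
      refine Finset.sum_congr rfl fun j _ => ?_
      rw [e2, smul_add, map_smul, lie_smul]
    have h4 : ∑ j, c j • ⁅f (a' j), f (b' j)⁆ = ψ ⟨∑ j, c j • ⁅a' j, b' j⁆, BB_le_lieSpan B hBB⟩ := by
      have h5 : (⟨∑ j, c j • ⁅a' j, b' j⁆, BB_le_lieSpan B hBB⟩ :
          LieSubalgebra.lieSpan K L (B : Set L)) =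
          ∑ j, c j • ⁅(⟨a' j, LieSubalgebra.subset_lieSpan (ha' j)⟩ :
            LieSubalgebra.lieSpan K L (B : Set L)), (⟨b' j, LieSubalgebra.subset_lieSpan (hb' j)⟩ :
            LieSubalgebra.lieSpan K L (B : Set L))⁆ := by
        apply Subtype.ext
        refine Eq.symm (Eq.trans
          (map_sum (LieSubalgebra.lieSpan K L (B : Set L)).toSubmodule.subtype _ _) ?_)
        rfl
      rw [h5, map_sum]
      refine Finset.sum_congr rfl fun j _ => ?_
      rw [map_smul, LieHom.map_lie, hfB _ (ha' j), hfB _ (hb' j)]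
    have h6 : ⁅f v, f n⁆ = ψ ⟨⁅v, n⁆, BB_le_lieSpan B h2⟩ := by
      rw [hfv, hfB n hnB]
      exact he n hnN _
    rw [h3, h4, h6, ← map_add]
    have h7 : (⟨∑ j, c j • ⁅a' j, b' j⁆, BB_le_lieSpan B hBB⟩ :
        LieSubalgebra.lieSpan K L (B : Set L)) + ⟨⁅v, n⁆, BB_le_lieSpan B h2⟩ = 0 :=
      Subtype.ext h1
    rw [h7, map_zero]
  obtain ⟨Ψ, hΨ⟩ := exists_hom (h.quadratic _ (sup_span_le hB hv)) f hR
  refine ⟨Ψ, ⟨fun x hx hx' => by rw [hΨ x hx', hfB x hx], fun hv' => by rw [hΨ v hv', hfv]⟩, ?_⟩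
  rintro Ψ' ⟨h1, h2⟩
  refine hom_unique fun x hx => ?_
  rw [hΨ x hx]
  obtain ⟨y, hy, z, hz, hyz⟩ := Submodule.mem_sup.1 hx
  obtain ⟨s, rfl⟩ := Submodule.mem_span_singleton.1 hz
  have hyW : y ∈ B ⊔ K ∙ v := Submodule.mem_sup_left hy
  have hvW : v ∈ B ⊔ K ∙ v := Submodule.mem_sup_right (Submodule.mem_span_singleton_self v)
  have h3 : (⟨x, LieSubalgebra.subset_lieSpan hx⟩ :
      LieSubalgebra.lieSpan K L ((B ⊔ K ∙ v : Submodule K L) : Set L)) =
      ⟨y, LieSubalgebra.subset_lieSpan hyW⟩ + s • ⟨v, LieSubalgebra.subset_lieSpan hvW⟩ :=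
    Subtype.ext hyz.symm
  rw [h3, map_add, map_smul, h1 y hy hyW, h2 hvW, ← hyz, map_add, map_smul, hfv, hfB y hy]

/-- **free Lie algebras** -/
theorem freeOver_bot {B : Submodule K L} (hB : B ≤ ℳ 1) (h2 : xn (ℳ 1) B 2 = 0) :
    FreeOver ⊥ B := by
  refine freeOver_of h hB bot_le ?_
  intro C _ hCB u hu huC
  have hCM := hCB.trans hB
  have h3 := xn_mono h hB (sup_span_le hCB hu) 1
  rw [xn_succ h hCM (hB hu) huC, xn_one h ((NN_le _ _).trans hCM)] at h3
  have hf := fin_of_le h ((NN_le C u).trans hCM)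
  have h4 : Module.finrank K ↥(NN C u) = 0 := by
    have h5 : xn (ℳ 1) B (1 + 1) = 0 := h2
    omega
  exact Submodule.finrank_eq_zero.1 h4

end Pool.Agent.Y712.BK
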