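import Mathlib

/-!
# Linear families of linear maps of maximal rank
-/

set_option autoImplicit false

namespace Pool.Agent.Y712.BK

open Polynomial

/-- In a linear family of linear maps over a field with enough elements, at a point `x` of maximal
rank, every member of the family maps the kernel of the map at `x` to its range. -/
theorem mem_range_of_max {K : Type} [Field K] {Y E F : Type*} [AddCommMonoid Y]
    [Module K Y] [AddCommGroup E] [Module K E] [AddCommGroup F] [Module K F]
    [FiniteDimensional K E] [FiniteDimensional K F]
    (hK : ((Module.finrank K E + 1 : ℕ) : Cardinal) < Cardinal.mk K) (c : Y →ₗ[K] E →ₗ[K] F) (x : Y)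
    (hx : ∀ y, Module.finrank K (LinearMap.range (c y)) ≤ Module.finrank K (LinearMap.range (c x)))
    (y : Y) (t : E) (ht : c x t = 0) : c y t ∈ LinearMap.range (c x) := by
  classical
  by_contra hcon
  set r := Module.finrank K (LinearMap.range (c x)) with hr
  let b : Module.Basis (Fin r) K (LinearMap.range (c x)) := Module.finBasis K _
  choose s hs using fun i => (b i).2
  -- the independent family at `x`
  let w0 : Option (Fin r) → F := fun o => o.elim (c y t) (fun i => c x (s i))
  have hw0 : LinearIndependent K w0 := by
    have h1 : LinearIndependent K (fun i => c x (s i)) := by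
      have h2 : (fun i => c x (s i)) = fun i => ((b i : LinearMap.range (c x)) : F) := by
        funext i
        exact hs i
      rw [h2]
      exact b.linearIndependent.map' (LinearMap.range (c x)).subtype (Submodule.ker_subtype _)
    have h3 := h1.option (x := c y t) (by
      intro hmem
      refine hcon ?_
      refine Submodule.span_le.2 ?_ hmem
      rintro _ ⟨i, rfl⟩
      exact ⟨_, rfl⟩)
    have h4 : w0 = fun o : Option (Fin r) => o.casesOn' (c y t) fun i => c x (s i) := by
      funext o
      cases o <;> rfl
    rw [h4]
    exact h3
  obtain ⟨g, hg⟩ := (Fintype.linearCombination K w0).exists_leftInverse_of_injective (by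
    rw [LinearMap.ker_eq_bot]
    exact hw0.fintypeLinearCombination_injective)
  have hgw : ∀ i, g (w0 i) = Pi.single i 1 := by
    intro i
    have := LinearMap.congr_fun hg (Pi.single i 1)
    rw [LinearMap.comp_apply, LinearMap.id_apply] at this
    rw [← this]
    congr 1
    rw [Fintype.linearCombination_apply_single, one_smul]
  let B : Matrix (Option (Fin r)) (Option (Fin r)) K :=
    Matrix.of fun o => o.elim 0 (fun i => g (c y (s i)))
  let P : K[X] := ((X : K[X]) • B.map C + (1 : Matrix _ _ K).map C).det
  have hP : ∀ a : K, P.eval a = (1 + a • B).det := by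
    intro a
    change Polynomial.evalRingHom a _ = _
    rw [RingHom.map_det, add_comm]
    congr 1
    ext i j
    simp [Matrix.one_apply, apply_ite]
    exact mul_comm _ _
  have hr1 : r + 1 ≤ Module.finrank K E := by
    have h1 := LinearMap.finrank_range_add_finrank_ker (c x)
    have h2 : 0 < Module.finrank K (LinearMap.ker (c x)) := by
      rw [Module.finrank_pos_iff]
      refine ⟨⟨t, ht⟩, 0, ?_⟩
      intro h0
      have h3 : t = 0 := congrArg Subtype.val h0
      rw [h3, map_zero] at hcon
      exact hcon (Submodule.zero_mem _)
    omega
  have hdeg : (X * P).natDegree < Module.finrank K E + 1 + 1 := by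
    have h1 := natDegree_det_X_add_C_le B (1 : Matrix (Option (Fin r)) (Option (Fin r)) K)
    rw [Fintype.card_option, Fintype.card_fin] at h1
    have h2 : (X * P).natDegree ≤ (X : K[X]).natDegree + P.natDegree := natDegree_mul_le
    rw [natDegree_X] at h2
    have h3 : P.natDegree ≤ r + 1 := h1
    omega
  have hP0 : X * P ≠ 0 := by
    refine mul_ne_zero X_ne_zero ?_
    intro h0
    have := hP 0
    rw [h0, zero_smul, add_zero, Matrix.det_one, eval_zero] at this
    exact zero_ne_one this
  obtain ⟨a, ha⟩ : ∃ a : K, (X * P).eval a ≠ 0 :=
    Polynomial.exists_eval_ne_zero_of_natDegree_lt_card _ hP0 (lt_of_le_of_lt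
      (Nat.cast_le.2 (Nat.lt_succ_iff.1 hdeg)) hK)
  rw [eval_mul, eval_X, hP] at ha
  have ha0 : a ≠ 0 := left_ne_zero_of_mul ha
  have hdet : (1 + a • B).det ≠ 0 := right_ne_zero_of_mul ha
  let w : Option (Fin r) → F := fun o => o.elim (c y t) (fun i => c x (s i) + a • c y (s i))
  have hgW : ∀ o, g (w o) = (1 + a • B) o := by
    rintro (_ | i)
    · change g (w0 none) = _
      rw [hgw]
      ext j
      simp [B, Matrix.one_apply, Pi.single_apply, eq_comm]
    · change g (w0 (some i) + a • c y (s i)) = _
      rw [map_add, map_smul, hgw]
      ext j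
      simp [B, Matrix.one_apply, Pi.single_apply, eq_comm]
  have hw : LinearIndependent K w := by
    have h1 : LinearIndependent K (fun o => g (w o)) := by
      have h2 : (fun o => g (w o)) = (1 + a • B).row := by
        funext o
        exact hgW o
      rw [h2]
      exact Matrix.linearIndependent_rows_of_det_ne_zero hdet
    exact LinearIndependent.of_comp g h1
  have hrange : ∀ o, w o ∈ LinearMap.range (c (x + a • y)) := by
    rintro (_ | i)
    · refine ⟨a⁻¹ • t, ?_⟩
      rw [map_smul, map_add, LinearMap.add_apply, map_smul, LinearMap.smul_apply, ht, zero_add,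
        smul_smul, inv_mul_cancel₀ ha0, one_smul]
      rfl
    · refine ⟨s i, ?_⟩
      rw [map_add, LinearMap.add_apply, map_smul, LinearMap.smul_apply]
      rfl
  have hfin : LinearIndependent K (fun o => (⟨w o, hrange o⟩ : LinearMap.range (c (x + a • y)))) :=
    LinearIndependent.of_comp (LinearMap.range (c (x + a • y))).subtype hw
  have hcard := hfin.fintype_card_le_finrank
  rw [Fintype.card_option, Fintype.card_fin] at hcard
  have := hx (x + a • y)
  omega

end Pool.Agent.Y712.BK
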