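import Pool.Agent.Y712.BK.Contr
import Pool.Agent.Y712.BK.Rank

/-!
# Hyperplanes that lower the cohomological dimension
-/

set_option autoImplicit false

namespace Pool.Agent.Y712.BK

open H89R3.BK Matrix

variable {K : Type} [Field K] {L : Type} [LieRing L] [LieAlgebra K L]
  {ℳ : ℕ → Submodule K L}

lemma sup_span_le {W A : Submodule K L} (hA : A ≤ W) {v : L} (hv : v ∈ W) : A ⊔ K ∙ v ≤ W :=
  sup_le hA (by rwa [Submodule.span_singleton_le_iff_mem])

/-- alternating tensors go to zero under the symmetrized product -/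
lemma symm_zero (h : IsLieGrading K ℳ) {J : Type} [Fintype J] (b d : J → L)
    (hb : ∀ j, b j ∈ ℳ 1) (hd : ∀ j, d j ∈ ℳ 1)
    (hbd : ∀ x y : XX ℳ, ∑ j, ((x : Module.Dual K L) (b j) * (y : Module.Dual K L) (d j) +
      (y : Module.Dual K L) (b j) * (x : Module.Dual K L) (d j)) = 0) :
    ∑ j, (UniversalEnvelopingAlgebra.ι K (b j) * UniversalEnvelopingAlgebra.ι K (d j) +
      UniversalEnvelopingAlgebra.ι K (d j) * UniversalEnvelopingAlgebra.ι K (b j)) = 0 := by
  classical
  have := h.finite 1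
  let e := Module.finBasis K (ℳ 1)
  obtain ⟨p, hp1, hp2⟩ := exists_pr h
  -- the coordinate functionals
  have hq : ∀ k, ∃ x : XX ℳ, ∀ a (ha : a ∈ ℳ 1), (x : Module.Dual K L) a = e.repr ⟨a, ha⟩ k := by
    intro k
    obtain ⟨q, hq⟩ := LinearMap.exists_extend (p := ℳ 1) (e.coord k)
    refine ⟨⟨q.comp p, ?_⟩, ?_⟩
    · intro i hi a ha
      rw [LinearMap.comp_apply, hp2 i hi a ha, map_zero]
    · intro a ha
      change q (p a) = _
      rw [hp1 a ha]
      exact LinearMap.congr_fun hq ⟨a, ha⟩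
  choose x hx using hq
  have hexp : ∀ a, a ∈ ℳ 1 → UniversalEnvelopingAlgebra.ι K a =
      ∑ k, (x k : Module.Dual K L) a • UniversalEnvelopingAlgebra.ι K ((e k : ℳ 1) : L) := by
    intro a ha
    have h1 : a = ∑ k, (x k : Module.Dual K L) a • ((e k : ℳ 1) : L) := by
      have h2 := congrArg (Submodule.subtype (ℳ 1)) (e.sum_repr ⟨a, ha⟩)
      rw [map_sum] at h2
      simp only [map_smul, Submodule.subtype_apply] at h2
      rw [← h2]
      refine Finset.sum_congr rfl fun k _ => ?_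
      rw [h2, hx k a ha]
    conv_lhs => rw [h1]
    rw [map_sum]
    exact Finset.sum_congr rfl fun k _ => map_smul _ _ _
  have h1 : ∀ j, UniversalEnvelopingAlgebra.ι K (b j) * UniversalEnvelopingAlgebra.ι K (d j) +
      UniversalEnvelopingAlgebra.ι K (d j) * UniversalEnvelopingAlgebra.ι K (b j) =
      ∑ k, ∑ l, ((x k : Module.Dual K L) (b j) * (x l : Module.Dual K L) (d j) +
        (x l : Module.Dual K L) (b j) * (x k : Module.Dual K L) (d j)) •
          (UniversalEnvelopingAlgebra.ι K ((e k : ℳ 1) : L) *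
            UniversalEnvelopingAlgebra.ι K ((e l : ℳ 1) : L)) := by
    intro j
    rw [hexp _ (hb j), hexp _ (hd j), Finset.sum_mul_sum, Finset.sum_mul_sum,
      ← Finset.sum_add_distrib]
    refine Finset.sum_congr rfl fun k _ => ?_
    rw [← Finset.sum_add_distrib]
    refine Finset.sum_congr rfl fun l _ => ?_
    rw [smul_mul_smul_comm, smul_mul_smul_comm, ← add_smul,
      mul_comm ((x k : Module.Dual K L) (d j))]
  simp only [h1]
  rw [Finset.sum_comm]
  refine Finset.sum_eq_zero fun k _ => ?_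
  rw [Finset.sum_comm]
  refine Finset.sum_eq_zero fun l _ => ?_
  rw [← Finset.sum_smul, hbd, zero_smul]

/-- the first contraction -/
lemma con_mem_NN_one (h : IsBlochKato K ℳ) (R : LinRes (ℳ 1) (ℳ 1)) {W : Submodule K L}
    (hW : W ≤ ℳ 1) {v : L} (hv : v ∈ ℳ 1) (hvW : v ∉ W) {x : XX ℳ}
    (hxW : ∀ w ∈ W, (x : Module.Dual K L) w = 0) (hxv : (x : Module.Dual K L) v = 1)
    {t : R.X 2 → K} (ht : t ∈ TT h.toIsLieGrading R (W ⊔ K ∙ v) 2) :
    con h.toIsLieGrading R 1 x t ∈ TT h.toIsLieGrading R (NN W v) 1 := by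
  have hg := h.toIsLieGrading
  obtain ⟨b, hb1, hb2, hb3⟩ := exists_lin hg R 1 t
  obtain ⟨a, ha1, ha2, ha3⟩ := exists_lin hg R 0 (con hg R 1 x t)
  choose d hd hds using fun j => mem_S1.1 (R.lin 0 j default)
  have hWv : W ⊔ K ∙ v ≤ ℳ 1 := sup_span_le hW hv
  have hbW : ∀ j, b j ∈ W ⊔ K ∙ v := by
    intro j
    refine mem_of_XX hg hWv (hb1 j) fun y hy => ?_
    rw [← hb3, (mem_TT hg R).1 ht y hy]
    rfl
  have hdec : ∀ j, b j - (x : Module.Dual K L) (b j) • v ∈ W := by
    intro j
    obtain ⟨c, hc, c', hc', hcc⟩ := Submodule.mem_sup.1 (hbW j)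
    obtain ⟨s, rfl⟩ := Submodule.mem_span_singleton.1 hc'
    rw [← hcc, map_add, hxW c hc, map_smul, hxv, zero_add, smul_eq_mul, mul_one,
      add_sub_cancel_right]
    exact hc
  -- the relation
  have hrel : ∑ j, UniversalEnvelopingAlgebra.ι K (b j) * UniversalEnvelopingAlgebra.ι K (d j) =
      0 := by
    have h1 : ((fun i => algebraMap K (UniversalEnvelopingAlgebra K L) (t i)) ᵥ* R.D 1) ᵥ* R.D 0 =
        0 := by
      rw [vecMul_vecMul, R.comp 0, vecMul_zero]
    have h2 := congrFun h1 default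
    simp only [vecMul, dotProduct, Pi.zero_apply] at h2
    rw [← h2]
    refine Finset.sum_congr rfl fun j _ => ?_
    rw [hb2, hds]
  -- contractions of the tensor
  have hdd : ∀ (y : XX ℳ) (s : R.X 1 → K), con hg R 0 y s default =
      ∑ j, s j * (y : Module.Dual K L) (d j) := by
    intro y s
    rw [con_apply]
    simp only [vecMul, dotProduct, Matrix.map_apply]
    refine Finset.sum_congr rfl fun j _ => ?_
    rw [← hds, chr_ι]
  have hsym := symm_zero hg b d hb1 hd (by
    intro y z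
    have h1 := con_con hg R 0 y z t
    have h2 := congrFun h1 default
    rw [Pi.neg_apply, hdd, hdd] at h2
    rw [Finset.sum_add_distrib]
    simp only [hb3] at h2
    rw [h2, add_neg_cancel])
  rw [Finset.sum_add_distrib, hrel, zero_add] at hsym
  -- the contraction
  have hN : UniversalEnvelopingAlgebra.ι K (a default) ∈ LI (NN W v) := by
    refine key_exact W v hvW (h.quadratic _ hWv) ?_
    have h1 : UniversalEnvelopingAlgebra.ι K (a default) =
        ∑ j, (x : Module.Dual K L) (b j) • UniversalEnvelopingAlgebra.ι K (d j) := by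
      rw [← ha2]
      refine Finset.sum_congr rfl fun j _ => ?_
      rw [hb3, hds, Algebra.smul_def]
    have h2 : UniversalEnvelopingAlgebra.ι K (a default) * UniversalEnvelopingAlgebra.ι K v =
        - ∑ j, UniversalEnvelopingAlgebra.ι K (d j) *
          UniversalEnvelopingAlgebra.ι K (b j - (x : Module.Dual K L) (b j) • v) := by
      rw [eq_neg_iff_add_eq_zero, h1, Finset.sum_mul, ← Finset.sum_add_distrib, ← hsym]
      refine Finset.sum_congr rfl fun j _ => ?_
      rw [map_sub, map_smul, mul_sub, mul_smul_comm, smul_mul_assoc]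
      abel
    rw [h2]
    refine Submodule.neg_mem _ (Submodule.sum_mem _ fun j _ => ?_)
    exact mul_mem_LI (ι_mem_LI (hdec j)) _
  rw [mem_TT]
  intro y hy
  ext j
  have hj : j = default := Subsingleton.elim _ _
  subst hj
  rw [ha3, ← chr_ι hg, chr_LI hg y hy hN]
  rfl

/-- the contraction by a functional that vanishes on `W` goes to the space of `NN W v` -/
lemma con_mem_NN (h : IsBlochKato K ℳ) (R : LinRes (ℳ 1) (ℳ 1)) {W : Submodule K L}
    (hW : W ≤ ℳ 1) {v : L} (hv : v ∈ ℳ 1) (hvW : v ∉ W) {x : XX ℳ}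
    (hxW : ∀ w ∈ W, (x : Module.Dual K L) w = 0) (hxv : (x : Module.Dual K L) v = 1) :
    ∀ (m : ℕ) {t : R.X (m + 1) → K}, t ∈ TT h.toIsLieGrading R (W ⊔ K ∙ v) (m + 1) →
      con h.toIsLieGrading R m x t ∈ TT h.toIsLieGrading R (NN W v) m := by
  intro m
  induction m with
  | zero =>
    intro t _
    exact Submodule.mem_top
  | succ m ih =>
    intro t ht
    rcases m with _ | m
    · exact con_mem_NN_one h R hW hv hvW hxW hxv ht
    · rw [mem_TT]
      intro y hy
      refine con_inj h.toIsLieGrading R _ _ fun z => ?_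
      rw [con_con, con_con h.toIsLieGrading R (m + 1) z x]
      have h1 := ih (con_mem h.toIsLieGrading R _ z ht)
      rw [mem_TT] at h1
      rw [map_neg, h1 y hy, neg_zero, neg_zero]

/-- the recursion, upper bound -/
lemma finrank_TT_le (h : IsBlochKato K ℳ) (R : LinRes (ℳ 1) (ℳ 1)) {W : Submodule K L}
    (hW : W ≤ ℳ 1) {v : L} (hv : v ∈ ℳ 1) (hvW : v ∉ W) (m : ℕ) :
    Module.finrank K (TT h.toIsLieGrading R (W ⊔ K ∙ v) (m + 1)) ≤
      Module.finrank K (TT h.toIsLieGrading R W (m + 1)) +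
        Module.finrank K (TT h.toIsLieGrading R (NN W v) m) := by
  have hg := h.toIsLieGrading
  obtain ⟨x, hxW, hxv⟩ := exists_XX hg hW hv hvW
  let T := TT hg R (W ⊔ K ∙ v) (m + 1)
  let f : T →ₗ[K] (R.X m → K) := (con hg R m x).comp T.subtype
  have h1 := LinearMap.finrank_range_add_finrank_ker f
  have h2 : Module.finrank K (LinearMap.range f) ≤ Module.finrank K (TT hg R (NN W v) m) := by
    refine Submodule.finrank_mono ?_
    rintro _ ⟨t, rfl⟩
    exact con_mem_NN h R hW hv hvW hxW hxv m t.2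
  have h3 : Module.finrank K (LinearMap.ker f) ≤ Module.finrank K (TT hg R W (m + 1)) := by
    have h4 : (LinearMap.ker f).map T.subtype ≤ TT hg R W (m + 1) := by
      rintro _ ⟨t, ht, rfl⟩
      rw [SetLike.mem_coe, LinearMap.mem_ker] at ht
      rw [mem_TT]
      intro y hy
      have h5 := (mem_TT hg R).1 t.2 (y + (-(y : Module.Dual K L) v) • x) (by
        intro w hw
        obtain ⟨c, hc, c', hc', rfl⟩ := Submodule.mem_sup.1 hw
        obtain ⟨s, rfl⟩ := Submodule.mem_span_singleton.1 hc'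
        rw [Submodule.coe_add, Submodule.coe_smul, LinearMap.add_apply, LinearMap.smul_apply,
          map_add, map_add, hy c hc, hxW c hc, map_smul, map_smul, hxv]
        simp [mul_comm])
      rw [map_add, map_smul, LinearMap.add_apply, LinearMap.smul_apply] at h5
      have h6 : con hg R m x t = 0 := ht
      have h7 : (T.subtype t : R.X (m + 1) → K) = (t : R.X (m + 1) → K) := rfl
      rw [h6, smul_zero, add_zero] at h5
      exact h5
    have h5 : Module.finrank K ((LinearMap.ker f).map T.subtype) =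
        Module.finrank K (LinearMap.ker f) :=
      LinearEquiv.finrank_eq (Submodule.equivMapOfInjective T.subtype
        (Submodule.subtype_injective T) (LinearMap.ker f)).symm
    rw [← h5]
    exact Submodule.finrank_mono h4
  change Module.finrank K T ≤ _
  omega

omit [LieRing L] [LieAlgebra K L] in
lemma exists_compl {V : Type} [AddCommGroup V] [Module K V] {W : Submodule K V} (hb : W ≠ ⊥) :
    ∃ A ≤ W, ∃ v ∈ W, v ∉ A ∧ A ⊔ K ∙ v = W := by
  obtain ⟨v, hv, hv0⟩ := Submodule.exists_mem_ne_zero_of_ne_bot hb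
  obtain ⟨C, hC⟩ := Submodule.exists_isCompl (K ∙ v)
  have hvW : K ∙ v ≤ W := by
    rw [Submodule.span_singleton_le_iff_mem]
    exact hv
  refine ⟨W ⊓ C, inf_le_left, v, hv, ?_, ?_⟩
  · rintro ⟨-, hvC⟩
    have : v ∈ (K ∙ v) ⊓ C := ⟨Submodule.mem_span_singleton_self v, hvC⟩
    rw [hC.inf_eq_bot] at this
    exact hv0 ((Submodule.mem_bot K).1 this)
  · rw [inf_sup_assoc_of_le _ hvW, sup_comm, hC.sup_eq_top, inf_top_eq]

/-- upper bound for the spaces -/
lemma finrank_TT_le_xn (h : IsBlochKato K ℳ) (R : LinRes (ℳ 1) (ℳ 1)) :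
    ∀ (m : ℕ) (W : Submodule K L), W ≤ ℳ 1 →
      Module.finrank K (TT h.toIsLieGrading R W m) ≤ xn (ℳ 1) W m := by
  intro m
  induction m with
  | zero =>
    intro W hW
    rw [xn_zero h hW]
    change Module.finrank K (⊤ : Submodule K (R.X 0 → K)) ≤ 1
    rw [finrank_top, Module.finrank_pi, Fintype.card_unique]
  | succ m ihm =>
    have key : ∀ (d : ℕ) (W : Submodule K L), W ≤ ℳ 1 → Module.finrank K W = d →
        Module.finrank K (TT h.toIsLieGrading R W (m + 1)) ≤ xn (ℳ 1) W (m + 1) := by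
      intro d
      induction d with
      | zero =>
        intro W hW hd
        have hfW := fin_of_le h hW
        have hb : W = ⊥ := Submodule.finrank_eq_zero.1 hd
        rw [hb, TT_bot, finrank_bot]
        exact Nat.zero_le _
      | succ d ih =>
        intro W hW hd
        have hfW := fin_of_le h hW
        have hb : W ≠ ⊥ := by
          rintro rfl
          rw [finrank_bot] at hd
          omega
        obtain ⟨A, hA, v, hv, hvA, hWA⟩ := exists_compl hb
        have hfA := fin_of_le h (hA.trans hW)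
        have hAd : Module.finrank K A = d := by
          have := finrank_sup_span hvA
          rw [hWA, hd] at this
          omega
        rw [← hWA, xn_succ h (hA.trans hW) (hW hv) hvA]
        exact (finrank_TT_le h R (hA.trans hW) (hW hv) hvA m).trans
          (Nat.add_le_add (ih A (hA.trans hW) hAd) (ihm _ ((NN_le _ _).trans (hA.trans hW))))
    intro W hW
    exact key _ W hW rfl

/-- **The spaces have the right dimension.** -/
lemma finrank_TT (h : IsBlochKato K ℳ) (R : LinRes (ℳ 1) (ℳ 1)) (m : ℕ) {W : Submodule K L}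
    (hW : W ≤ ℳ 1) :
    Module.finrank K (TT h.toIsLieGrading R W (m + 1)) = xn (ℳ 1) W (m + 1) := by
  refine le_antisymm (finrank_TT_le_xn h R (m + 1) W hW) ?_
  have key := flag_induction h (W := ℳ 1) le_rfl
    (p := fun _ A => xn (ℳ 1) A (m + 1) ≤ Module.finrank K (TT h.toIsLieGrading R A (m + 1)))
    (by
      rw [TT_top, finrank_top, Module.finrank_pi, xn_eq R]) (by
      intro k A hA v hv hvA hk
      rw [xn_succ h hA hv hvA] at hk
      have h1 := finrank_TT_le h R hA hv hvA m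
      have h2 := finrank_TT_le_xn h R m (NN A v) ((NN_le _ _).trans hA)
      omega)
  obtain ⟨k, hk⟩ := exists_add h (W := ℳ 1) le_rfl hW
  exact key k W hW hk

omit [LieRing L] [LieAlgebra K L] in
/-- a member of maximal rank -/
lemma exists_max_aux {Y E F : Type} [AddCommMonoid Y] [Module K Y] [AddCommGroup E]
    [Module K E] [AddCommGroup F] [Module K F] [FiniteDimensional K E] [FiniteDimensional K F]
    (c : Y →ₗ[K] E →ₗ[K] F) (T : Submodule K E)
    (hK : ((Module.finrank K T + 1 : ℕ) : Cardinal) < Cardinal.mk K) :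
    ∃ x, ∀ y, ∀ t ∈ T, c x t = 0 → ∃ s ∈ T, c x s = c y t := by
  let c' : Y →ₗ[K] T →ₗ[K] F := c.domRestrict₂ T
  obtain ⟨x, hx⟩ : ∃ x, ∀ y, Module.finrank K (LinearMap.range (c' y)) ≤
      Module.finrank K (LinearMap.range (c' x)) := by
    let S : Set ℕ := Set.range fun y => Module.finrank K (LinearMap.range (c' y))
    have hS : BddAbove S := by
      refine ⟨Module.finrank K F, ?_⟩
      rintro _ ⟨y, rfl⟩
      exact Submodule.finrank_le _
    obtain ⟨x, hx⟩ := Nat.sSup_mem (Set.range_nonempty _) hS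
    refine ⟨x, fun y => ?_⟩
    change _ ≤ (fun y => Module.finrank K (LinearMap.range (c' y))) x
    rw [hx]
    exact le_csSup hS ⟨y, rfl⟩
  refine ⟨x, fun y t ht h0 => ?_⟩
  obtain ⟨s, hs⟩ := mem_range_of_max hK c' x hx y ⟨t, ht⟩ h0
  exact ⟨s, s.2, hs⟩

/-- the step -/
lemma xn_hyperplane (h : IsBlochKato K ℳ) (R : LinRes (ℳ 1) (ℳ 1)) {n : ℕ} {W A : Submodule K L}
    (hW : W ≤ ℳ 1) (hA : A ≤ W) {v : L} (hv : v ∈ W) (hvA : v ∉ A) (hsup : A ⊔ K ∙ v = W)
    (hn : ∀ m, n + 2 < m → xn (ℳ 1) W m = 0) {x : XX ℳ}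
    (hxA : ∀ w ∈ A, (x : Module.Dual K L) w = 0) (hxv : (x : Module.Dual K L) v = 1)
    (hmax : ∀ (y : XX ℳ) (t : R.X (n + 2) → K), t ∈ TT h.toIsLieGrading R W (n + 2) →
      con h.toIsLieGrading R (n + 1) x t = 0 →
        ∃ s ∈ TT h.toIsLieGrading R W (n + 2),
          con h.toIsLieGrading R (n + 1) x s = con h.toIsLieGrading R (n + 1) y t) :
    xn (ℳ 1) A (n + 2) = 0 := by
  rw [← finrank_TT h R (n + 1) (hA.trans hW)]
  have hN : TT h.toIsLieGrading R (NN A v) (n + 2) = ⊥ := by
    apply Submodule.finrank_eq_zero.1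
    rw [finrank_TT h R (n + 1) ((NN_le _ _).trans (hA.trans hW))]
    have h1 := xn_succ h (hA.trans hW) (hW hv) hvA (n + 2)
    rw [hsup, hn _ (by omega)] at h1
    have h2 : xn (ℳ 1) (NN A v) (n + 2) = 0 := by omega
    exact h2
  have h0 : TT h.toIsLieGrading R A (n + 2) = ⊥ := by
    rw [eq_bot_iff, ← hN]
    intro t ht
    rw [mem_TT]
    intro z hz
    refine con_inj h.toIsLieGrading R _ _ fun y => ?_
    obtain ⟨s, hs, hst⟩ := hmax y t (TT_mono _ R hA _ ht) ((mem_TT _ R).1 ht x hxA)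
    rw [con_con, ← hst]
    rw [← hsup] at hs
    have h2 := con_mem_NN h R (hA.trans hW) (hW hv) hvA hxA hxv (n + 1) hs
    rw [mem_TT] at h2
    rw [h2 z hz, neg_zero]
  rw [h0, finrank_bot]

/-- **Hyperplanes that lower the cohomological dimension.** -/
theorem exists_hyperplane (h : IsBlochKato K ℳ) {n : ℕ} {W : Submodule K L}
    (hW : W ≤ ℳ 1) (hK : ((xn (ℳ 1) W (n + 2) + 1 : ℕ) : Cardinal) < Cardinal.mk K)
    (hb : W ≠ ⊥) (hn : ∀ m, n + 2 < m → xn (ℳ 1) W m = 0) :
    ∃ A ≤ W, ∃ v ∈ W, v ∉ A ∧ A ⊔ K ∙ v = W ∧ ∀ m, n + 1 < m → xn (ℳ 1) A m = 0 := by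
  obtain ⟨R⟩ := exists_res h _ (ℳ 1) le_rfl rfl
  -- it is enough to have degree `n + 2`
  suffices hs : ∃ A ≤ W, ∃ v ∈ W, v ∉ A ∧ A ⊔ K ∙ v = W ∧ xn (ℳ 1) A (n + 2) = 0 by
    obtain ⟨A, hA, v, hv, hvA, hsup, h0⟩ := hs
    refine ⟨A, hA, v, hv, hvA, hsup, ?_⟩
    intro m hm
    rcases Nat.lt_or_ge (n + 2) m with h1 | h1
    · obtain ⟨m, rfl⟩ : ∃ k, m = k + 1 := ⟨m - 1, by omega⟩
      have := xn_mono h hW hA m
      rw [hn _ h1] at this
      omega
    · have : m = n + 2 := by omega
      rw [this]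
      exact h0
  obtain ⟨x, hmax⟩ := exists_max_aux (con h.toIsLieGrading R (n + 1))
    (TT h.toIsLieGrading R W (n + 2)) (by
      rw [finrank_TT h R (n + 1) hW]
      exact hK)
  by_cases hxW : ∀ w ∈ W, (x : Module.Dual K L) w = 0
  · -- all contractions are zero
    have hE : TT h.toIsLieGrading R W (n + 2) = ⊥ := by
      rw [eq_bot_iff]
      intro t ht
      rw [Submodule.mem_bot]
      refine con_inj h.toIsLieGrading R _ _ fun y => ?_
      obtain ⟨s, hs, hst⟩ := hmax y t ht ((mem_TT _ R).1 ht x hxW)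
      rw [← hst]
      exact (mem_TT _ R).1 hs x hxW
    have hxn : xn (ℳ 1) W (n + 2) = 0 := by
      rw [← finrank_TT h R (n + 1) hW, hE, finrank_bot]
    obtain ⟨A, hA, v, hv, hvA, hWA⟩ := exists_compl hb
    refine ⟨A, hA, v, hv, hvA, hWA, ?_⟩
    have h3 : xn (ℳ 1) A (n + 2) ≤ xn (ℳ 1) W (n + 2) := xn_mono h hW hA (n + 1)
    rw [hxn] at h3
    exact Nat.le_zero.1 h3
  · push Not at hxW
    obtain ⟨v', hv', hxv'⟩ := hxW
    set v := ((x : Module.Dual K L) v')⁻¹ • v' with hvdef
    have hv : v ∈ W := W.smul_mem _ hv'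
    have hxv : (x : Module.Dual K L) v = 1 := by
      rw [hvdef, map_smul, smul_eq_mul, inv_mul_cancel₀ hxv']
    set A := W ⊓ LinearMap.ker (x : Module.Dual K L) with hAdef
    have hA : A ≤ W := inf_le_left
    have hxA : ∀ w ∈ A, (x : Module.Dual K L) w = 0 := fun w hw => hw.2
    have hvA : v ∉ A := by
      intro hvA
      rw [hxA v hvA] at hxv
      exact zero_ne_one hxv
    have hsup : A ⊔ K ∙ v = W := by
      refine le_antisymm (sup_span_le hA hv) ?_
      intro w hw
      rw [Submodule.mem_sup]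
      refine ⟨w - (x : Module.Dual K L) w • v, ⟨W.sub_mem hw (W.smul_mem _ hv), ?_⟩,
        (x : Module.Dual K L) w • v, Submodule.smul_mem _ _ (Submodule.mem_span_singleton_self v),
        sub_add_cancel _ _⟩
      rw [SetLike.mem_coe, LinearMap.mem_ker, map_sub, map_smul, hxv, smul_eq_mul, mul_one,
        sub_self]
    exact ⟨A, hA, v, hv, hvA, hsup, xn_hyperplane h R hW hA hv hvA hsup hn hxA hxv hmax⟩

end Pool.Agent.Y712.BK
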