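import Pool.Agent.Y712.BK.Wide

/-!
# Sharp bounds for the Betti numbers
-/

set_option autoImplicit false

namespace Pool.Agent.Y712.BK

open H89R3.BK

variable {K : Type} [Field K] {L : Type} [LieRing L] [LieAlgebra K L]
  {ℳ : ℕ → Submodule K L} (h : IsBlochKato K ℳ)

include h

/-- **The upper bounds.** -/
theorem xn_le_sharp : ∀ (n : ℕ) (W : Submodule K L), W ≤ ℳ 1 → Big ℳ W →
    (∀ m, n + 1 < m → xn (ℳ 1) W m = 0) → ∀ k,
      xn (ℳ 1) W (k + 1) ≤ n.choose (k + 1) + (Module.finrank K W - n) * n.choose k := by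
  intro n
  induction n with
  | zero =>
    intro W hW hK hn k
    rcases k with _ | k
    · have h1 : xn (ℳ 1) W (0 + 1) = Module.finrank K W := xn_one h hW
      rw [h1]
      simp
    · rw [hn (k + 1 + 1) (by omega)]
      exact Nat.zero_le _
  | succ n ih =>
    intro W hW hK hn k
    by_cases hb : W = ⊥
    · rw [hb, xn_bot]
      exact Nat.zero_le _
    rcases k with _ | k
    · have h1 : xn (ℳ 1) W (0 + 1) = Module.finrank K W := xn_one h hW
      rw [h1, zero_add, Nat.choose_one_right, Nat.choose_zero_right, mul_one]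
      omega
    have hfW := fin_of_le h hW
    obtain ⟨A, hA, v, hv, hvA, hsup, hA0, -⟩ := exists_hyperplane' h hW hK hb hn
    have hAM := hA.trans hW
    have hfA := fin_of_le h hAM
    have hd : Module.finrank K W = Module.finrank K A + 1 := by
      rw [← hsup, finrank_sup_span hvA]
    have hKA : ∀ B ≤ W, Big ℳ B := fun B hB => hK.mono h hW hB
    have h1 := ih A hAM (hKA A hA) hA0 (k + 1)
    have h2 := ih (NN A v) ((NN_le _ _).trans hAM) (hKA _ ((NN_le _ _).trans hA)) (by
      intro m hm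
      have h3 := xn_succ h hAM (hW hv) hvA m
      rw [hsup, hn (m + 1) (by omega)] at h3
      omega) k
    have h3 : Module.finrank K ↥(NN A v) ≤ Module.finrank K A :=
      Submodule.finrank_mono (NN_le _ _)
    have h4 := xn_succ h hAM (hW hv) hvA (k + 1)
    rw [hsup] at h4
    rw [h4, hd, Nat.choose_succ_succ' n (k + 1), Nat.choose_succ_succ' n k]
    have h5 : (Module.finrank K ↥(NN A v) - n) * n.choose k ≤
        (Module.finrank K A - n) * n.choose k := Nat.mul_le_mul_right _ (by omega)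
    have h6 : Module.finrank K A + 1 - (n + 1) = Module.finrank K A - n := by omega
    rw [h6, mul_add]
    omega

/-- **The lower bounds.** -/
theorem choose_le_xn : ∀ (n : ℕ) (W : Submodule K L), W ≤ ℳ 1 → xn (ℳ 1) W n ≠ 0 →
    ∀ k, n.choose k ≤ xn (ℳ 1) W k := by
  intro n
  induction n with
  | zero =>
    intro W hW _ k
    rcases k with _ | k
    · rw [xn_zero h hW, Nat.choose_zero_right]
    · rw [Nat.choose_zero_succ]
      exact Nat.zero_le _
  | succ n ih =>
    intro W hW hne k
    rcases k with _ | k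
    · rw [xn_zero h hW, Nat.choose_zero_right]
    obtain ⟨A, hA, v, hv, hvA, hN⟩ : ∃ A ≤ W, ∃ v ∈ W, v ∉ A ∧ xn (ℳ 1) (NN A v) n ≠ 0 := by
      by_contra hcon
      push Not at hcon
      have key := flag_induction h hW (p := fun _ A => xn (ℳ 1) W (n + 1) = xn (ℳ 1) A (n + 1))
        rfl (by
          intro j A hA v hv hvA hj
          rw [hj, xn_succ h (hA.trans hW) (hW hv) hvA, hcon A hA v hv hvA, add_zero])
      obtain ⟨j, hj⟩ := exists_add h hW (bot_le (a := W))
      have h1 := key j ⊥ bot_le hj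
      rw [xn_bot] at h1
      exact hne h1
    have h1 := xn_succ h (hA.trans hW) (hW hv) hvA k
    have h2 := xn_mono h hW (sup_span_le hA hv) k
    have h3 := xn_mono h (hA.trans hW) (NN_le A v) k
    have hNM := (NN_le A v).trans (hA.trans hW)
    have h4 := ih (NN A v) hNM hN k
    have h5 := ih (NN A v) hNM hN (k + 1)
    rw [Nat.choose_succ_succ']
    omega

theorem betti_le_sharp (hK : Big ℳ (ℳ 1))
    (n : ℕ) (hn : HasCd K L (n + 1)) (k : ℕ) :
    betti K L (k + 1) ≤ n.choose (k + 1) + (betti K L 1 - n) * n.choose k := by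
  have h1 := xn_le_sharp h n (ℳ 1) le_rfl hK (by
    intro m hm
    obtain ⟨m, rfl⟩ : ∃ k, m = k + 1 := ⟨m - 1, by omega⟩
    rw [← betti_eq h]
    have h2 : ¬ Nontrivial (Coh K L (m + 1)) := by
      intro hnt
      exact absurd (hn.2 hnt) (not_le.2 hm)
    rw [not_nontrivial_iff_subsingleton] at h2
    exact Module.finrank_zero_of_subsingleton) k
  rw [← betti_eq h, ← xn_one h le_rfl, ← betti_eq h] at h1
  exact h1

theorem choose_le_betti (n : ℕ) (hn : HasCd K L n) (k : ℕ) :
    n.choose (k + 1) ≤ betti K L (k + 1) := by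
  rcases n with _ | n
  · rw [Nat.choose_zero_succ]
    exact Nat.zero_le _
  rw [betti_eq h]
  refine choose_le_xn h (n + 1) (ℳ 1) le_rfl ?_ (k + 1)
  rw [← betti_eq h]
  have h1 : Nontrivial (Coh K L (n + 1)) := hn.1
  have h2 := coh_finite h n
  exact Module.finrank_pos.ne'

theorem omega_ge (hK : Big ℳ (ℳ 1))
    (n : ℕ) (hn : HasCd K L n) :
    ((n : ℤ) - 1) * ((betti K L 1 : ℤ) - n) ^ 2 ≤
      ((n : ℤ) - 1) * (betti K L 1 : ℤ) ^ 2 - 2 * (n : ℤ) * (betti K L 2 : ℤ) := by
  rcases n with _ | n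
  · simp
  have h1 := betti_le_sharp h hK n hn 1
  have h2 := choose_le_betti h (n + 1) hn 0
  rw [zero_add, Nat.choose_one_right] at h2
  have h3 : 2 * n.choose 2 = n * (n - 1) := by
    rw [Nat.choose_two_right, mul_comm, Nat.div_mul_cancel]
    exact (Nat.even_mul_pred_self n).two_dvd
  obtain ⟨e, he⟩ : ∃ e, betti K L 1 = n + 1 + e := ⟨betti K L 1 - (n + 1), by omega⟩
  have h4 : betti K L 1 - n = e + 1 := by omega
  have h1' : betti K L 2 ≤ n.choose 2 + (e + 1) * n := by
    have := h1
    rw [h4, Nat.choose_one_right] at this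
    exact this
  have h5 : 2 * betti K L 2 ≤ n * (n - 1) + 2 * ((e + 1) * n) := by
    rw [← h3]
    omega
  have h6 : (2 * betti K L 2 : ℤ) ≤ n * (n - 1) + 2 * ((e + 1) * n) := by
    rcases n with _ | n
    · simp only [zero_mul, mul_zero, add_zero, Nat.le_zero] at h5
      have : (betti K L 2 : ℤ) = 0 := by exact_mod_cast (by omega : betti K L 2 = 0)
      rw [this]
      norm_num
    · rw [Nat.add_sub_cancel] at h5
      have : ((2 * betti K L 2 : ℕ) : ℤ) ≤ (((n + 1) * n + 2 * ((e + 1) * (n + 1)) : ℕ) : ℤ) := by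
        exact_mod_cast h5
      push_cast at this ⊢
      linarith
  rw [he]
  push_cast
  have h7 : (0 : ℤ) ≤ (n : ℤ) + 1 := by positivity
  nlinarith [mul_le_mul_of_nonneg_left h6 h7]

end Pool.Agent.Y712.BK
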