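import Pool.Agent.Y712.BK.Sharp

/-!
# The subalgebra generated by a subspace
-/

set_option autoImplicit false

namespace Pool.Agent.Y712.BK

open H89R3.BK

variable {K : Type} [Field K] {L : Type} [LieRing L] [LieAlgebra K L]

/-- The grading of a Lie subalgebra of a graded Lie algebra. -/
def subGr (M : LieSubalgebra K L) (ℳ : ℕ → Submodule K L) (i : ℕ) : Submodule K M :=
  (ℳ i).comap M.toSubmodule.subtype

variable {ℳ : ℕ → Submodule K L}

lemma mem_subGr {M : LieSubalgebra K L} {i : ℕ} {x : M} : x ∈ subGr M ℳ i ↔ (x : L) ∈ ℳ i :=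
  Iff.rfl

lemma eq_top_of_lieSpan {W : Submodule K L}
    (S : LieSubalgebra K (LieSubalgebra.lieSpan K L (W : Set L)))
    (hS : ∀ x : LieSubalgebra.lieSpan K L (W : Set L), (x : L) ∈ W → x ∈ S) : S = ⊤ := by
  rw [eq_top_iff]
  intro x _
  have h1 : LieSubalgebra.lieSpan K L (W : Set L) ≤
      S.map (LieSubalgebra.lieSpan K L (W : Set L)).incl := by
    rw [LieSubalgebra.lieSpan_le]
    intro w hw
    exact ⟨⟨w, LieSubalgebra.subset_lieSpan hw⟩, hS _ hw, rfl⟩
  obtain ⟨y, hy, hxy⟩ := h1 x.2
  have : y = x := Subtype.ext hxy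
  rw [← this]
  exact hy

/-- the component of degree one of the subalgebra generated by `W` is `W` -/
lemma mem_of_lieSpan (h : IsLieGrading K ℳ) {W : Submodule K L} (hW : W ≤ ℳ 1) {x : L}
    (hx : x ∈ LieSubalgebra.lieSpan K L (W : Set L)) (hx1 : x ∈ ℳ 1) : x ∈ W := by
  refine mem_of_XX h hW hx1 fun y hy => ?_
  let S : LieSubalgebra K L :=
    { LinearMap.ker (y : Module.Dual K L) with
      lie_mem' := by
        intro a b _ _
        exact XX_lie h y a b }
  have h1 : LieSubalgebra.lieSpan K L (W : Set L) ≤ S := by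
    rw [LieSubalgebra.lieSpan_le]
    intro w hw
    exact hy w hw
  exact h1 hx

lemma isLieGrading_sub (h : IsLieGrading K ℳ) {W : Submodule K L} (hW : W ≤ ℳ 1) :
    IsLieGrading K (subGr (LieSubalgebra.lieSpan K L (W : Set L)) ℳ) := by
  have hlie : ∀ i j : ℕ, ∀ x ∈ subGr (LieSubalgebra.lieSpan K L (W : Set L)) ℳ i,
      ∀ y ∈ subGr (LieSubalgebra.lieSpan K L (W : Set L)) ℳ j,
      ⁅x, y⁆ ∈ subGr (LieSubalgebra.lieSpan K L (W : Set L)) ℳ (i + j) :=
    fun i j x hx y hy => h.lie_mem i j x hx y hy
  refine ⟨?_, ?_, ?_, hlie⟩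
  · rw [DirectSum.isInternal_submodule_iff_iSupIndep_and_iSup_eq_top]
    have hi := (DirectSum.isInternal_submodule_iff_iSupIndep_and_iSup_eq_top ℳ).1 h.internal
    refine ⟨?_, ?_⟩
    · intro i
      rw [Submodule.disjoint_def]
      intro x hx hx'
      have h1 := (Submodule.disjoint_def.1 (hi.1 i)) (x : L) hx (by
        have h2 : (⨆ j, ⨆ (_ : j ≠ i), subGr (LieSubalgebra.lieSpan K L (W : Set L)) ℳ j) ≤
            (⨆ j, ⨆ (_ : j ≠ i), ℳ j).comap
              (LieSubalgebra.lieSpan K L (W : Set L)).toSubmodule.subtype := by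
          refine iSup₂_le fun j hj => ?_
          intro z hz
          exact Submodule.mem_iSup_of_mem j (Submodule.mem_iSup_of_mem hj hz)
        exact h2 hx')
      exact Subtype.ext h1
    · let S : LieSubalgebra K (LieSubalgebra.lieSpan K L (W : Set L)) :=
        { (⨆ i, subGr (LieSubalgebra.lieSpan K L (W : Set L)) ℳ i) with
          lie_mem' := by
            intro a b ha hb
            refine Submodule.iSup_induction _
              (motive := fun a => ∀ b, b ∈ (⨆ i, subGr (LieSubalgebra.lieSpan K L (W : Set L)) ℳ i) →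
                ⁅a, b⁆ ∈ (⨆ i, subGr (LieSubalgebra.lieSpan K L (W : Set L)) ℳ i)) ha ?_ ?_ ?_ b hb
            · intro i a ha b hb
              refine Submodule.iSup_induction _
                (motive := fun b =>
                  ⁅a, b⁆ ∈ (⨆ i, subGr (LieSubalgebra.lieSpan K L (W : Set L)) ℳ i)) hb ?_ ?_ ?_
              · intro j b hb
                exact Submodule.mem_iSup_of_mem (i + j) (hlie i j a ha b hb)
              · rw [lie_zero]
                exact Submodule.zero_mem _
              · intro b c hb hc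
                rw [lie_add]
                exact Submodule.add_mem _ hb hc
            · intro b _
              rw [zero_lie]
              exact Submodule.zero_mem _
            · intro a c ha hc b hb
              rw [add_lie]
              exact Submodule.add_mem _ (ha b hb) (hc b hb) }
      have hS : S = ⊤ := eq_top_of_lieSpan S fun x hx =>
        Submodule.mem_iSup_of_mem (p := subGr (LieSubalgebra.lieSpan K L (W : Set L)) ℳ) 1 (hW hx)
      rw [eq_top_iff]
      intro x _
      have : x ∈ S := by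
        rw [hS]
        trivial
      exact this
  · rw [eq_bot_iff]
    intro x hx
    rw [mem_subGr, h.zero_eq, Submodule.mem_bot] at hx
    exact Subtype.ext hx
  · intro i
    have := h.finite i
    let f : subGr (LieSubalgebra.lieSpan K L (W : Set L)) ℳ i →ₗ[K] ℳ i :=
      LinearMap.codRestrict (ℳ i)
        ((LieSubalgebra.lieSpan K L (W : Set L)).toSubmodule.subtype.comp
          (subGr (LieSubalgebra.lieSpan K L (W : Set L)) ℳ i).subtype) (fun x => x.2)
    refine Module.Finite.of_injective f ?_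
    intro x y hxy
    have h1 := congrArg (fun z : ℳ i => (z : L)) hxy
    exact Subtype.ext (Subtype.ext h1)

lemma quadraticOn_sub (M : LieSubalgebra K L) (A : Submodule K M)
    (hA : QuadraticOn K (A.map M.toSubmodule.subtype)) : QuadraticOn K A := by
  have hinj : Function.Injective M.toSubmodule.subtype := Submodule.subtype_injective _
  obtain ⟨d, w, hk⟩ := hA
  let e := Submodule.equivMapOfInjective M.toSubmodule.subtype hinj A
  let w' : Module.Basis (Fin d) K A := w.map e.symm
  have hw' : ∀ i, (((w' i : A) : M) : L) = (w i : L) := by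
    intro i
    have h1 : e (w' i) = w i := by
      change e (e.symm (w i)) = w i
      exact e.apply_symm_apply _
    rw [← h1]
    rfl
  refine ⟨d, w', ?_⟩
  have hcomp : M.incl.comp (FreeLieAlgebra.lift K (fun i => ((w' i : A) : M))) =
      FreeLieAlgebra.lift K (fun i => (w i : L)) := by
    refine FreeLieAlgebra.hom_ext fun i => ?_
    change M.incl (FreeLieAlgebra.lift K (fun i => ((w' i : A) : M)) (FreeLieAlgebra.of K i)) =
      FreeLieAlgebra.lift K (fun i => (w i : L)) (FreeLieAlgebra.of K i)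
    rw [FreeLieAlgebra.lift_of_apply, FreeLieAlgebra.lift_of_apply]
    exact hw' i
  have hker : (FreeLieAlgebra.lift K (fun i => ((w' i : A) : M))).ker =
      (FreeLieAlgebra.lift K (fun i => (w i : L))).ker := by
    ext z
    rw [LieHom.mem_ker, LieHom.mem_ker, ← hcomp]
    constructor
    · intro hz
      exact (congrArg M.incl hz).trans (map_zero _)
    · intro hz
      exact Subtype.ext hz
  rw [hker]
  exact hk

/-- **Subalgebras generated by subspaces of degree one are Bloch-Kato.** -/
theorem isBlochKato_sub (h : IsBlochKato K ℳ) {W : Submodule K L} (hW : W ≤ ℳ 1) :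
    IsBlochKato K (subGr (LieSubalgebra.lieSpan K L (W : Set L)) ℳ) := by
  refine { isLieGrading_sub h.toIsLieGrading hW with standard := ?_, quadratic := ?_ }
  · exact eq_top_of_lieSpan _ fun x hx => LieSubalgebra.subset_lieSpan (hW hx)
  · intro A hA
    refine quadraticOn_sub _ A (h.quadratic _ ?_)
    rintro _ ⟨x, hx, rfl⟩
    exact hA hx

lemma BB_map (M : LieSubalgebra K L) (A : Submodule K M) :
    BB (A.map M.toSubmodule.subtype) = (BB A).map M.toSubmodule.subtype := by
  rw [BB, BB, Submodule.map_span]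
  congr 1
  ext z
  constructor
  · rintro ⟨_, ⟨a, ha, rfl⟩, _, ⟨b, hb, rfl⟩, rfl⟩
    let a' : M := a
    let b' : M := b
    exact ⟨⁅a', b'⁆, ⟨a', ha, b', hb, rfl⟩, rfl⟩
  · rintro ⟨_, ⟨a, ha, b, hb, rfl⟩, rfl⟩
    exact ⟨a, ⟨a, ha, rfl⟩, b, ⟨b, hb, rfl⟩, rfl⟩

lemma NN_map (M : LieSubalgebra K L) (A : Submodule K M) (v : M) :
    NN (A.map M.toSubmodule.subtype) (v : L) = (NN A v).map M.toSubmodule.subtype := by
  ext z
  constructor
  · rintro ⟨⟨a, ha, rfl⟩, h2⟩
    rw [BB_map] at h2
    obtain ⟨c, hc, hc'⟩ := h2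
    refine ⟨a, ⟨ha, ?_⟩, rfl⟩
    have : c = ⁅v, a⁆ := Subtype.ext hc'
    rw [← this]
    exact hc
  · rintro ⟨a, ⟨ha, ha'⟩, rfl⟩
    refine ⟨⟨a, ha, rfl⟩, ?_⟩
    rw [BB_map]
    exact ⟨⁅v, a⁆, ha', rfl⟩

/-- the numbers can be computed in the subalgebra -/
lemma xn_sub (h : IsBlochKato K ℳ) {W : Submodule K L} (hW : W ≤ ℳ 1) : ∀ (m d : ℕ)
    (A : Submodule K (LieSubalgebra.lieSpan K L (W : Set L))),
    A ≤ subGr (LieSubalgebra.lieSpan K L (W : Set L)) ℳ 1 → Module.finrank K A = d →
    xn (subGr (LieSubalgebra.lieSpan K L (W : Set L)) ℳ 1) A m =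
      xn (ℳ 1) (A.map (LieSubalgebra.lieSpan K L (W : Set L)).toSubmodule.subtype) m := by
  have hM := isBlochKato_sub h hW
  have hmap : ∀ A : Submodule K (LieSubalgebra.lieSpan K L (W : Set L)),
      A ≤ subGr (LieSubalgebra.lieSpan K L (W : Set L)) ℳ 1 →
        A.map (LieSubalgebra.lieSpan K L (W : Set L)).toSubmodule.subtype ≤ ℳ 1 := by
    rintro A hA _ ⟨x, hx, rfl⟩
    exact hA hx
  intro m
  induction m with
  | zero =>
    intro d A hA _
    rw [xn_zero hM hA, xn_zero h (hmap A hA)]
  | succ m ihm =>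
    intro d
    induction d with
    | zero =>
      intro A hA hd
      have hfA := fin_of_le hM hA
      have hb : A = ⊥ := Submodule.finrank_eq_zero.1 hd
      rw [hb, Submodule.map_bot, xn_bot, xn_bot]
    | succ d ih =>
      intro A hA hd
      have hfA := fin_of_le hM hA
      have hb : A ≠ ⊥ := by
        rintro rfl
        rw [finrank_bot] at hd
        omega
      obtain ⟨B, hB, v, hv, hvB, hsup⟩ := exists_compl hb
      have hfB := fin_of_le hM (hB.trans hA)
      have hBd : Module.finrank K B = d := by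
        have := finrank_sup_span hvB
        rw [hsup, hd] at this
        omega
      have hvB' : (v : L) ∉
          B.map (LieSubalgebra.lieSpan K L (W : Set L)).toSubmodule.subtype := by
        rintro ⟨x, hx, hxv⟩
        have : x = v := Subtype.ext hxv
        rw [this] at hx
        exact hvB hx
      rw [← hsup, xn_succ hM (hB.trans hA) (hA hv) hvB, Submodule.map_sup, Submodule.map_span,
        Set.image_singleton]
      have h1 := xn_succ h (hmap B (hB.trans hA)) (v := (v : L)) (hA hv) hvB' m
      rw [NN_map (LieSubalgebra.lieSpan K L (W : Set L)) B v] at h1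
      rw [ih B (hB.trans hA) hBd, ihm _ (NN B v) ((NN_le _ _).trans (hB.trans hA)) rfl]
      exact h1.symm

lemma map_subGr_one (h : IsLieGrading K ℳ) {W : Submodule K L} (hW : W ≤ ℳ 1) :
    (subGr (LieSubalgebra.lieSpan K L (W : Set L)) ℳ 1).map
      (LieSubalgebra.lieSpan K L (W : Set L)).toSubmodule.subtype = W := by
  apply le_antisymm
  · rintro _ ⟨x, hx, rfl⟩
    exact mem_of_lieSpan h hW x.2 hx
  · intro w hw
    exact ⟨⟨w, LieSubalgebra.subset_lieSpan hw⟩, hW hw, rfl⟩

/-- the Betti numbers of the subalgebra -/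
lemma betti_sub (h : IsBlochKato K ℳ) {W : Submodule K L} (hW : W ≤ ℳ 1) (m : ℕ) :
    betti K (LieSubalgebra.lieSpan K L (W : Set L)) (m + 1) = xn (ℳ 1) W (m + 1) := by
  rw [betti_eq (isBlochKato_sub h hW), xn_sub h hW (m + 1) _ _ le_rfl rfl,
    map_subGr_one h.toIsLieGrading hW]

lemma nontrivial_coh_iff (h : IsBlochKato K ℳ) (m : ℕ) :
    Nontrivial (Coh K L (m + 1)) ↔ betti K L (m + 1) ≠ 0 := by
  have h1 := coh_finite h m
  rw [betti, ← Nat.pos_iff_ne_zero, Module.finrank_pos_iff]

end Pool.Agent.Y712.BK
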