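import Pool.Agent.Y712.BK.Hyp
import Pool.Agent.Y56.BK.St

/-!
# Hyperplanes that lower the cohomological dimension: fields with enough elements
-/

set_option autoImplicit false

namespace Pool.Agent.Y712.BK

open H89R3.BK

variable {K : Type} [Field K] {L : Type} [LieRing L] [LieAlgebra K L]
  {ℳ : ℕ → Submodule K L} (h : IsBlochKato K ℳ)

/-- the field has enough elements for `W` -/
def Big (ℳ : ℕ → Submodule K L) (W : Submodule K L) : Prop :=
  (∀ s : Finset K, s.card + 1 ≤ Module.finrank K W → ∃ t, t ∉ s) ∨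
    ∀ m, 2 ≤ m → ((xn (ℳ 1) W m + 1 : ℕ) : Cardinal) < Cardinal.mk K

include h

lemma Big.mono {W A : Submodule K L} (hW : W ≤ ℳ 1) (hA : A ≤ W) (hb : Big ℳ W) : Big ℳ A := by
  have hfW := fin_of_le h hW
  rcases hb with hb | hb
  · exact Or.inl fun s hs => hb s (hs.trans (Submodule.finrank_mono hA))
  · refine Or.inr fun m hm => ?_
    refine lt_of_le_of_lt ?_ (hb m hm)
    obtain ⟨m, rfl⟩ : ∃ k, m = k + 1 := ⟨m - 1, by omega⟩
    exact Nat.cast_le.2 (Nat.add_le_add_right (xn_mono h hW hA m) 1)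

/-- helper56's hyperplane: all relations of `B` live in `NN B v` -/
theorem exists_free_hyperplane {W : Submodule K L} (hW : W ≤ ℳ 1) (hb : W ≠ ⊥)
    (hK : ∀ s : Finset K, s.card + 1 ≤ Module.finrank K W → ∃ t, t ∉ s) :
    ∃ B ≤ W, ∃ v ∈ W, v ∉ B ∧ B ⊔ K ∙ v = W ∧
      (∀ C : Submodule K L, NN B v ≤ C → C ≤ B → ∀ u ∈ B, u ∉ C → NN C u = ⊥) ∧
      ∀ m, xn (ℳ 1) (NN B v) (m + 2) = xn (ℳ 1) B (m + 2) := by
  have hfW := fin_of_le h hW
  let S : Set ℕ := {r | ∃ B ≤ W, ∃ v ∈ W, v ∉ B ∧ Module.finrank K W = Module.finrank K B + 1 ∧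
    Module.finrank K ↥(NN B v) = r}
  have hSb : BddAbove S := by
    refine ⟨Module.finrank K W, ?_⟩
    rintro r ⟨B, hB, v, hv, hvB, -, rfl⟩
    exact Submodule.finrank_mono ((NN_le _ _).trans hB)
  have hSn : S.Nonempty := by
    obtain ⟨A, hA, v, hv, hvA, hsup⟩ := exists_compl hb
    have := fin_of_le h (hA.trans hW)
    have hr := finrank_sup_span hvA
    rw [hsup] at hr
    exact ⟨_, A, hA, v, hv, hvA, hr, rfl⟩
  obtain ⟨B, hB, v, hv, hvB, hdim, hr⟩ := Nat.sSup_mem hSn hSb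
  have hmax : ∀ B' ≤ W, ∀ v' ∈ W, v' ∉ B' → Module.finrank K W = Module.finrank K B' + 1 →
      Module.finrank K ↥(NN B' v') ≤ Module.finrank K ↥(NN B v) := by
    intro B' hB' v' hv' hvB' hd'
    rw [hr]
    exact le_csSup hSb ⟨B', hB', v', hv', hvB', hd', rfl⟩
  have hBM : B ≤ ℳ 1 := hB.trans hW
  have hfB := fin_of_le h hBM
  have hsup : B ⊔ K ∙ v = W := by
    apply Submodule.eq_of_le_of_finrank_eq (sup_span_le hB hv)
    rw [finrank_sup_span hvB, hdim]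
  have hNB : NN B v ≤ B := NN_le B v
  have hrel : ∀ C : Submodule K L, NN B v ≤ C → C ≤ B → ∀ u ∈ B, u ∉ C → NN C u = ⊥ :=
    fun C hNC hCB u hu huC =>
      Pool.Agent.Y56.BK.main_lemma hB hv hvB hdim hK hmax hNC hCB hu huC
  refine ⟨B, hB, v, hv, hvB, hsup, hrel, ?_⟩
  intro m
  have key := flag_induction h hBM
    (p := fun _ A => NN B v ≤ A → xn (ℳ 1) A (m + 2) = xn (ℳ 1) B (m + 2))
    (fun _ => rfl) (by
      intro k A hA u hu huA ih hNA
      have h1 := ih (hNA.trans le_sup_left)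
      rw [xn_succ h (hA.trans hBM) (hBM hu) huA,
        hrel A hNA hA u hu huA, xn_bot, add_zero] at h1
      exact h1)
  obtain ⟨k, hk⟩ := exists_add h hBM hNB
  exact key k (NN B v) hNB hk le_rfl

/-- **Hyperplanes that lower the cohomological dimension**, with the wide hypothesis -/
theorem exists_hyperplane' {n : ℕ} {W : Submodule K L} (hW : W ≤ ℳ 1) (hK : Big ℳ W)
    (hb : W ≠ ⊥) (hn : ∀ m, n + 2 < m → xn (ℳ 1) W m = 0) :
    ∃ A ≤ W, ∃ v ∈ W, v ∉ A ∧ A ⊔ K ∙ v = W ∧ (∀ m, n + 1 < m → xn (ℳ 1) A m = 0) ∧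
      ((∀ s : Finset K, s.card + 1 ≤ Module.finrank K W → ∃ t, t ∉ s) →
        ∀ C : Submodule K L, NN A v ≤ C → C ≤ A → ∀ u ∈ A, u ∉ C → NN C u = ⊥) := by
  by_cases hK1 : ∀ s : Finset K, s.card + 1 ≤ Module.finrank K W → ∃ t, t ∉ s
  · obtain ⟨B, hB, v, hv, hvB, hsup, hrel, hN⟩ := exists_free_hyperplane h hW hb hK1
    refine ⟨B, hB, v, hv, hvB, hsup, ?_, fun _ => hrel⟩
    intro m hm
    obtain ⟨m, rfl⟩ : ∃ k, m = k + 2 := ⟨m - 2, by omega⟩
    rw [← hN]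
    have h1 := xn_succ h (hB.trans hW) (hW hv) hvB (m + 2)
    rw [hsup, hn _ (by omega)] at h1
    omega
  · rcases hK with hK | hK
    · exact absurd hK hK1
    obtain ⟨A, hA, v, hv, hvA, hsup, h0⟩ := exists_hyperplane h hW (hK _ (by omega)) hb hn
    exact ⟨A, hA, v, hv, hvA, hsup, h0, fun hK2 => absurd hK2 hK1⟩

end Pool.Agent.Y712.BK
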